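import Mathlib

/-! # MP_c7d282_an, Q2: projections and free extreme points

The closed bounded matrix convex set of all `(P, A, B, Q)` with `-1 ≤ [[P, X], [Xᴴ, Q]] ≤ 1`,
`X = A + i B`, is the matrix convex hull of its free extreme points, but its projection to
`(P, A, B)` is not: the point `(1, 0, 0)` of level one is missed. -/

namespace Pool.Agent.Results.MP_c7d282_an.ProjectionFails

open Matrix
open scoped ComplexOrder

/-- A family `K n`, `n : ℕ`, of sets of `g`-tuples of complex `n × n` matrices. Only the levels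
`n ≥ 1` matter. -/
abbrev MSet (g : ℕ) := (n : ℕ) → Set (Fin g → Matrix (Fin n) (Fin n) ℂ)

/-- `X` (of level `n`) is a matrix convex combination of elements of `S` of levels `d i ≥ 1`. -/
def IsComb {g : ℕ} (S : MSet g) (n : ℕ) (X : Fin g → Matrix (Fin n) (Fin n) ℂ) : Prop :=
  ∃ (ι : Type) (_ : Fintype ι) (d : ι → ℕ)
    (Y : (i : ι) → Fin g → Matrix (Fin (d i)) (Fin (d i)) ℂ)
    (V : (i : ι) → Matrix (Fin (d i)) (Fin n) ℂ),
    (∀ i, 0 < d i) ∧ (∀ i, Y i ∈ S (d i)) ∧ ∑ i, (V i)ᴴ * V i = 1 ∧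
      ∀ j, X j = ∑ i, (V i)ᴴ * Y i j * V i

/-- The set of all matrix convex combinations of elements of `S`. -/
def mconv {g : ℕ} (S : MSet g) : MSet g := fun n => {X | IsComb S n X}

/-- A closed bounded matrix convex set of self-adjoint tuples. -/
structure IsClosedBoundedMatrixConvex {g : ℕ} (K : MSet g) : Prop where
  selfAdjoint : ∀ n, ∀ X ∈ K n, ∀ j, (X j).IsHermitian
  convex : ∀ n, 0 < n → mconv K n ⊆ K n
  closed : ∀ n, 0 < n → IsClosed (K n)
  bounded : ∀ n, 0 < n → ∃ C : ℝ, ∀ X ∈ K n, ∀ j a b, ‖X j a b‖ ≤ C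

/-- Unitary equivalence of tuples (the index types may be different). -/
def UnitEquiv {g : ℕ} {α β : Type} [Fintype α] [DecidableEq α] [Fintype β] [DecidableEq β]
    (X : Fin g → Matrix α α ℂ) (Y : Fin g → Matrix β β ℂ) : Prop :=
  ∃ U : Matrix β α ℂ, Uᴴ * U = 1 ∧ U * Uᴴ = 1 ∧ ∀ j, Y j = U * X j * Uᴴ

/-- Free extreme points. -/
def IsFreeExt {g : ℕ} (K : MSet g) (n : ℕ) (X : Fin g → Matrix (Fin n) (Fin n) ℂ) : Prop :=
  X ∈ K n ∧ ∀ (ι : Type) [Fintype ι] (d : ι → ℕ)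
    (Y : (i : ι) → Fin g → Matrix (Fin (d i)) (Fin (d i)) ℂ)
    (V : (i : ι) → Matrix (Fin (d i)) (Fin n) ℂ),
    (∀ i, 0 < d i) → (∀ i, Y i ∈ K (d i)) → ∑ i, (V i)ᴴ * V i = 1 →
    (∀ j, X j = ∑ i, (V i)ᴴ * Y i j * V i) → (∀ i, V i ≠ 0) →
    ∀ i, (d i = n ∧ UnitEquiv X (Y i)) ∨
      (n < d i ∧ ∃ (p : ℕ) (Z : Fin g → Matrix (Fin p) (Fin p) ℂ), 0 < p ∧ Z ∈ K p ∧
        UnitEquiv (fun j => Matrix.fromBlocks (X j) 0 0 (Z j)) (Y i))

/-- The family of free extreme points of `K` (of levels `n ≥ 1`). -/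
def freeExt {g : ℕ} (K : MSet g) : MSet g := fun n => {X | 0 < n ∧ IsFreeExt K n X}

/-- The projection to the first `h` coordinates. -/
def proj {g : ℕ} (K : MSet g) (h : ℕ) (hh : h ≤ g) : MSet h :=
  fun n => {X | ∃ Y ∈ K n, ∀ j, X j = Y (Fin.castLE hh j)}

/-- The `2 × 2` block matrix `[[P, A + i B], [A - i B, Q]]`. -/
def blk {α : Type} (X : Fin 4 → Matrix α α ℂ) : Matrix (α ⊕ α) (α ⊕ α) ℂ :=
  Matrix.fromBlocks (X 0) (X 1 + Complex.I • X 2) (X 1 - Complex.I • X 2) (X 3)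

/-- The set of all `(P, A, B, Q)` with `-1 ≤ [[P, A + i B], [A - i B, Q]] ≤ 1`. -/
def KH : MSet 4 := fun n => {X | (∀ j, (X j).IsHermitian) ∧ (1 - blk X).PosSemidef ∧
  (1 + blk X).PosSemidef}

/-! ## General linear algebra -/

lemma spectral {α : Type} [Fintype α] [DecidableEq α] {A : Matrix α α ℂ} (hA : A.IsHermitian) :
    ∃ (U : Matrix α α ℂ) (l : α → ℝ), Uᴴ * U = 1 ∧ U * Uᴴ = 1 ∧
      A = U * Matrix.diagonal (fun i => (l i : ℂ)) * Uᴴ := by
  refine ⟨hA.eigenvectorUnitary, hA.eigenvalues, ?_, ?_, ?_⟩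
  · rw [← Matrix.star_eq_conjTranspose]; simp
  · rw [← Matrix.star_eq_conjTranspose]; simp
  · have := hA.spectral_theorem
    rw [Unitary.conjStarAlgAut_apply] at this
    rw [← Matrix.star_eq_conjTranspose]
    exact this

/-- If `A ≥ 0` and `Bᴴ A B = 0` then `A B = 0`. -/
lemma psd_zero {α β : Type} [Fintype α] [DecidableEq α] [Fintype β] [DecidableEq β]
    {A : Matrix α α ℂ} (hA : A.PosSemidef) {B : Matrix α β ℂ} (h : Bᴴ * A * B = 0) :
    A * B = 0 := by
  ext i j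
  have hx := hA.dotProduct_mulVec_zero_iff (B.col j)
  have h1 : star (B.col j) ⬝ᵥ A *ᵥ (B.col j) = (Bᴴ * A * B) j j := by
    rw [Matrix.mul_assoc, Matrix.mul_apply]
    simp [dotProduct, Matrix.mulVec, Matrix.mul_apply, Matrix.col]
  rw [h1, h] at hx
  have := congrFun (hx.1 (by simp)) i
  simpa [Matrix.mulVec, dotProduct, Matrix.mul_apply, Matrix.col] using this

lemma psd_sum_zero {ι α : Type} [Fintype ι] [Fintype α] [DecidableEq α]
    {M : ι → Matrix α α ℂ} (hM : ∀ i, (M i).PosSemidef) (h : ∑ i, M i = 0) (i : ι) : M i = 0 := by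
  rw [← (hM i).trace_eq_zero_iff]
  have h1 : ∑ i, (M i).trace = 0 := by
    rw [← Matrix.trace_sum, h]; simp
  exact (Finset.sum_eq_zero_iff_of_nonneg (fun i _ => (hM i).trace_nonneg)).1 h1 i
    (Finset.mem_univ i)

/-- A Hermitian idempotent is `U Uᴴ` for an isometry `U`. -/
lemma exists_isometry {n : ℕ} {Q : Matrix (Fin n) (Fin n) ℂ} (hQ : Q.IsHermitian)
    (hQ2 : Q * Q = Q) : ∃ (k : ℕ) (U : Matrix (Fin n) (Fin k) ℂ), Uᴴ * U = 1 ∧ U * Uᴴ = Q := by
  classical
  obtain ⟨W, l, hW1, hW2, hW⟩ := spectral hQ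
  have hD : Matrix.diagonal (fun i => (l i : ℂ)) = Wᴴ * Q * W := by
    rw [hW]
    simp only [Matrix.mul_assoc]
    rw [hW1, Matrix.mul_one, ← Matrix.mul_assoc, hW1, Matrix.one_mul]
  have hl : ∀ i, l i = 0 ∨ l i = 1 := by
    intro i
    have h2 : Matrix.diagonal (fun i => (l i : ℂ)) * Matrix.diagonal (fun i => (l i : ℂ))
        = Matrix.diagonal (fun i => (l i : ℂ)) := by
      rw [hD]
      calc Wᴴ * Q * W * (Wᴴ * Q * W) = Wᴴ * Q * (W * Wᴴ) * Q * W := by
            simp only [Matrix.mul_assoc]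
        _ = Wᴴ * (Q * Q) * W := by rw [hW2]; simp only [Matrix.mul_assoc, Matrix.one_mul]
        _ = _ := by rw [hQ2]
    have := congrFun (congrFun h2 i) i
    rw [Matrix.diagonal_mul_diagonal] at this
    simp only [Matrix.diagonal_apply_eq] at this
    have h3 : l i * l i = l i := by exact_mod_cast this
    have h4 : l i * (l i - 1) = 0 := by linarith
    rcases mul_eq_zero.1 h4 with h | h
    · exact Or.inl h
    · exact Or.inr (by linarith)
  let S := {i : Fin n // l i = 1}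
  let e : Fin (Fintype.card S) ≃ S := (Fintype.equivFin S).symm
  refine ⟨Fintype.card S, W.submatrix id (fun a => (e a : Fin n)), ?_, ?_⟩
  · ext a b
    have h1 := congrFun (congrFun hW1 (e a)) (e b)
    simp only [Matrix.mul_apply, Matrix.conjTranspose_apply, Matrix.submatrix_apply, id,
      Matrix.one_apply] at h1 ⊢
    rw [h1]
    by_cases hab : a = b
    · simp [hab]
    · have : ¬ ((e a : Fin n) = (e b : Fin n)) := fun h => hab (e.injective (Subtype.ext h))
      simp [hab, this]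
  · rw [hW]
    ext a b
    have hr : ((W * Matrix.diagonal (fun i => (l i : ℂ))) * Wᴴ) a b
        = ∑ x, if l x = 1 then W a x * star (W b x) else 0 := by
      rw [Matrix.mul_apply]
      refine Finset.sum_congr rfl fun x _ => ?_
      rw [Matrix.mul_diagonal, Matrix.conjTranspose_apply]
      rcases hl x with h | h <;> simp [h]
    rw [hr, ← Finset.sum_filter, Matrix.mul_apply]
    simp only [Matrix.conjTranspose_apply, Matrix.submatrix_apply, id]
    rw [Equiv.sum_comp e (fun s : S => W a (s : Fin n) * star (W b (s : Fin n)))]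
    rw [Finset.sum_subtype (Finset.univ.filter fun x => l x = 1) (p := fun x => l x = 1)
      (by simp)]

/-- If the only Hermitian idempotents commuting with the Hermitian tuple `X` are `0` and `1`, then
every Hermitian matrix commuting with it is scalar. -/
lemma scalar_of_irred {g n : ℕ} (hn : 0 < n) {X : Fin g → Matrix (Fin n) (Fin n) ℂ}
    (hirr : ∀ Q : Matrix (Fin n) (Fin n) ℂ, Q.IsHermitian → Q * Q = Q →
      (∀ j, Q * X j = X j * Q) → Q = 0 ∨ Q = 1)
    {H : Matrix (Fin n) (Fin n) ℂ} (hH : H.IsHermitian) (hc : ∀ j, H * X j = X j * H) :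
    ∃ c : ℝ, H = (c : ℂ) • (1 : Matrix (Fin n) (Fin n) ℂ) := by
  classical
  obtain ⟨W, l, hW1, hW2, hW⟩ := spectral hH
  let i0 : Fin n := ⟨0, hn⟩
  obtain ⟨f, hf⟩ : ∃ f : Fin n → ℂ, ∀ i, f i = if l i = l i0 then 1 else 0 := ⟨_, fun _ => rfl⟩
  obtain ⟨Q, hQdef⟩ : ∃ Q, Q = W * Matrix.diagonal f * Wᴴ := ⟨_, rfl⟩
  have hfs : star f = f := by
    ext i
    rw [Pi.star_apply, hf]
    split_ifs <;> simp
  have hQh : Q.IsHermitian := by
    show Qᴴ = Q
    rw [hQdef, Matrix.conjTranspose_mul, Matrix.conjTranspose_mul,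
      Matrix.conjTranspose_conjTranspose, Matrix.diagonal_conjTranspose, hfs, Matrix.mul_assoc]
  have hff : Matrix.diagonal f * Matrix.diagonal f = Matrix.diagonal f := by
    rw [Matrix.diagonal_mul_diagonal]
    congr 1
    ext i
    rw [hf]
    split_ifs <;> simp
  have hQQ : Q * Q = Q := by
    rw [hQdef]
    calc W * Matrix.diagonal f * Wᴴ * (W * Matrix.diagonal f * Wᴴ)
        = W * Matrix.diagonal f * (Wᴴ * W) * Matrix.diagonal f * Wᴴ := by
          simp only [Matrix.mul_assoc]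
      _ = W * (Matrix.diagonal f * Matrix.diagonal f) * Wᴴ := by
          rw [hW1, Matrix.mul_one]; simp only [Matrix.mul_assoc]
      _ = _ := by rw [hff]
  have hQc : ∀ j, Q * X j = X j * Q := by
    intro j
    set T := Wᴴ * X j * W with hT
    have hXT : X j = W * T * Wᴴ := by
      rw [hT]
      calc X j = (W * Wᴴ) * X j * (W * Wᴴ) := by rw [hW2]; simp
        _ = _ := by simp only [Matrix.mul_assoc]
    have h1 : Matrix.diagonal (fun i => (l i : ℂ)) * T = T * Matrix.diagonal (fun i => (l i : ℂ)) := by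
      have h2 := hc j
      have h3 : Wᴴ * (H * X j) * W = Wᴴ * (X j * H) * W := by rw [h2]
      rw [hW] at h3
      calc Matrix.diagonal (fun i => (l i : ℂ)) * T
          = (Wᴴ * W) * Matrix.diagonal (fun i => (l i : ℂ)) * Wᴴ * X j * W := by
            rw [hW1, hT]; simp only [Matrix.mul_assoc, Matrix.one_mul]
        _ = Wᴴ * (W * Matrix.diagonal (fun i => (l i : ℂ)) * Wᴴ * X j) * W := by
            simp only [Matrix.mul_assoc]
        _ = Wᴴ * (X j * (W * Matrix.diagonal (fun i => (l i : ℂ)) * Wᴴ)) * W := h3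
        _ = T * Matrix.diagonal (fun i => (l i : ℂ)) * (Wᴴ * W) := by
            rw [hT]; simp only [Matrix.mul_assoc]
        _ = _ := by rw [hW1, Matrix.mul_one]
    have h4 : Matrix.diagonal f * T = T * Matrix.diagonal f := by
      ext a b
      have h5 := congrFun (congrFun h1 a) b
      rw [Matrix.diagonal_mul, Matrix.mul_diagonal] at h5 ⊢
      by_cases hab : l a = l b
      · rw [hf, hf, hab]; ring
      · have h6 : ((l a : ℂ) - (l b : ℂ)) * T a b = 0 := by linear_combination h5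
        rcases mul_eq_zero.1 h6 with h | h
        · exact absurd (by exact_mod_cast sub_eq_zero.1 h) hab
        · rw [h]; ring
    rw [hXT, hQdef]
    calc W * Matrix.diagonal f * Wᴴ * (W * T * Wᴴ)
        = W * Matrix.diagonal f * (Wᴴ * W) * T * Wᴴ := by simp only [Matrix.mul_assoc]
      _ = W * (Matrix.diagonal f * T) * Wᴴ := by
          rw [hW1, Matrix.mul_one]; simp only [Matrix.mul_assoc]
      _ = W * T * (Wᴴ * W) * Matrix.diagonal f * Wᴴ := by
          rw [h4, hW1, Matrix.mul_one]; simp only [Matrix.mul_assoc]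
      _ = _ := by simp only [Matrix.mul_assoc]
  have hdiag : Matrix.diagonal f = Wᴴ * Q * W := by
    calc Matrix.diagonal f = (Wᴴ * W) * Matrix.diagonal f * (Wᴴ * W) := by rw [hW1]; simp
      _ = _ := by rw [hQdef]; simp only [Matrix.mul_assoc]
  have hQ1 : Q = 1 := by
    rcases hirr Q hQh hQQ hQc with h | h
    · exfalso
      rw [h] at hdiag
      have := congrFun (congrFun hdiag i0) i0
      simp [hf] at this
    · exact h
  refine ⟨l i0, ?_⟩
  have hall : ∀ i, l i = l i0 := by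
    intro i
    rw [hQ1, Matrix.mul_one, hW1] at hdiag
    have := congrFun (congrFun hdiag i) i
    rw [Matrix.diagonal_apply_eq, Matrix.one_apply_eq, hf] at this
    by_contra h
    simp [h] at this
  rw [hW]
  have : Matrix.diagonal (fun i => (l i : ℂ)) = (l i0 : ℂ) • (1 : Matrix (Fin n) (Fin n) ℂ) := by
    ext a b
    by_cases hab : a = b
    · simp [hab, hall b]
    · simp [hab]
  rw [this, Matrix.mul_smul, Matrix.mul_one, Matrix.smul_mul, hW2]

/-! ## The block matrix of a quadruple -/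

/-- `V ⊕ V`. -/
def dd {α β : Type} (V : Matrix α β ℂ) : Matrix (α ⊕ α) (β ⊕ β) ℂ := Matrix.fromBlocks V 0 0 V

lemma dd_mul {α β γ : Type} [Fintype β] (V : Matrix α β ℂ) (W : Matrix β γ ℂ) :
    dd (V * W) = dd V * dd W := by
  simp [dd, Matrix.fromBlocks_multiply]

lemma dd_conjTranspose {α β : Type} (V : Matrix α β ℂ) : (dd V)ᴴ = dd Vᴴ := by
  simp [dd, Matrix.fromBlocks_conjTranspose]

lemma dd_one {α : Type} [DecidableEq α] : dd (1 : Matrix α α ℂ) = 1 := by
  simp [dd, Matrix.fromBlocks_one]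

lemma dd_sum {ι α β : Type} [Fintype ι] (V : ι → Matrix α β ℂ) :
    dd (∑ i, V i) = ∑ i, dd (V i) := by
  ext a b
  rcases a with a | a <;> rcases b with b | b <;> simp [dd, Matrix.sum_apply]

lemma blk_conj {α β : Type} [Fintype α] (Y : Fin 4 → Matrix α α ℂ) (V : Matrix α β ℂ) :
    blk (fun j => Vᴴ * Y j * V) = (dd V)ᴴ * blk Y * dd V := by
  rw [dd_conjTranspose]
  simp only [blk, dd, Matrix.fromBlocks_multiply]
  simp [Matrix.mul_add, Matrix.add_mul, Matrix.mul_sub, Matrix.sub_mul]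

lemma blk_sum {ι α : Type} [Fintype ι] (X : ι → Fin 4 → Matrix α α ℂ) :
    blk (fun j => ∑ i, X i j) = ∑ i, blk (X i) := by
  ext a b
  rcases a with a | a <;> rcases b with b | b <;>
    simp [blk, Matrix.sum_apply, Finset.sum_add_distrib, Finset.mul_sum]

lemma blk_hermitian {α : Type} {X : Fin 4 → Matrix α α ℂ} (h : ∀ j, (X j).IsHermitian) :
    (blk X).IsHermitian := by
  have h0 := (h 0).eq
  have h1 := (h 1).eq
  have h2 := (h 2).eq
  have h3 := (h 3).eq
  show (blk X)ᴴ = blk X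
  rw [blk, Matrix.fromBlocks_conjTranspose, h0, h3]
  congr 1
  · rw [Matrix.conjTranspose_sub, Matrix.conjTranspose_smul, h1, h2]
    simp
  · rw [Matrix.conjTranspose_add, Matrix.conjTranspose_smul, h1, h2]
    simp [sub_eq_add_neg]

/-- The inverse of `blk`. -/
noncomputable def unblk {α : Type} (M : Matrix (α ⊕ α) (α ⊕ α) ℂ) : Fin 4 → Matrix α α ℂ :=
  ![M.toBlocks₁₁, (1 / 2 : ℂ) • (M.toBlocks₁₂ + M.toBlocks₂₁),
    (-Complex.I / 2) • (M.toBlocks₁₂ - M.toBlocks₂₁), M.toBlocks₂₂]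

lemma unblk_zero {α : Type} (M : Matrix (α ⊕ α) (α ⊕ α) ℂ) (a b : α) :
    unblk M 0 a b = M (Sum.inl a) (Sum.inl b) := rfl

lemma unblk_one {α : Type} (M : Matrix (α ⊕ α) (α ⊕ α) ℂ) (a b : α) :
    unblk M 1 a b = 1 / 2 * (M (Sum.inl a) (Sum.inr b) + M (Sum.inr a) (Sum.inl b)) := rfl

lemma unblk_two {α : Type} (M : Matrix (α ⊕ α) (α ⊕ α) ℂ) (a b : α) :
    unblk M 2 a b = -Complex.I / 2 * (M (Sum.inl a) (Sum.inr b) - M (Sum.inr a) (Sum.inl b)) := rfl

lemma unblk_three {α : Type} (M : Matrix (α ⊕ α) (α ⊕ α) ℂ) (a b : α) :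
    unblk M 3 a b = M (Sum.inr a) (Sum.inr b) := rfl

lemma blk_unblk {α : Type} (M : Matrix (α ⊕ α) (α ⊕ α) ℂ) : blk (unblk M) = M := by
  have hI : Complex.I * Complex.I = -1 := Complex.I_mul_I
  ext a b
  rcases a with a | a <;> rcases b with b | b
  · rfl
  · show unblk M 1 a b + Complex.I * unblk M 2 a b = _
    rw [unblk_one, unblk_two]
    linear_combination (-(M (Sum.inl a) (Sum.inr b) - M (Sum.inr a) (Sum.inl b)) / 2) * hI
  · show unblk M 1 a b - Complex.I * unblk M 2 a b = _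
    rw [unblk_one, unblk_two]
    linear_combination ((M (Sum.inl a) (Sum.inr b) - M (Sum.inr a) (Sum.inl b)) / 2) * hI
  · rfl

lemma unblk_blk {α : Type} (X : Fin 4 → Matrix α α ℂ) : unblk (blk X) = X := by
  have hI : Complex.I * Complex.I = -1 := Complex.I_mul_I
  funext j
  ext a b
  fin_cases j
  · rfl
  · show 1 / 2 * ((X 1 a b + Complex.I * X 2 a b) + (X 1 a b - Complex.I * X 2 a b)) = X 1 a b
    ring
  · show -Complex.I / 2 * ((X 1 a b + Complex.I * X 2 a b) - (X 1 a b - Complex.I * X 2 a b))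
      = X 2 a b
    linear_combination (-(X 2 a b)) * hI
  · rfl

lemma unblk_hermitian {α : Type} {M : Matrix (α ⊕ α) (α ⊕ α) ℂ} (h : M.IsHermitian) (j : Fin 4) :
    (unblk M j).IsHermitian := by
  refine Matrix.IsHermitian.ext fun a b => ?_
  have h11 := h.apply (Sum.inl a) (Sum.inl b)
  have h12 := h.apply (Sum.inl a) (Sum.inr b)
  have h21 := h.apply (Sum.inr a) (Sum.inl b)
  have h22 := h.apply (Sum.inr a) (Sum.inr b)
  fin_cases j
  · exact h11
  · show star (1 / 2 * (M (Sum.inl b) (Sum.inr a) + M (Sum.inr b) (Sum.inl a)))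
      = 1 / 2 * (M (Sum.inl a) (Sum.inr b) + M (Sum.inr a) (Sum.inl b))
    rw [← h12, ← h21]
    simp
    ring
  · show star (-Complex.I / 2 * (M (Sum.inl b) (Sum.inr a) - M (Sum.inr b) (Sum.inl a)))
      = -Complex.I / 2 * (M (Sum.inl a) (Sum.inr b) - M (Sum.inr a) (Sum.inl b))
    rw [← h12, ← h21]
    simp
    ring
  · exact h22

/-- `KH` in terms of the block matrix. -/
lemma mem_KH {n : ℕ} {X : Fin 4 → Matrix (Fin n) (Fin n) ℂ} :
    X ∈ KH n ↔ (∀ j, (X j).IsHermitian) ∧ (1 - blk X).PosSemidef ∧ (1 + blk X).PosSemidef :=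
  Iff.rfl

/-! ## Intertwining -/

section Intertwine

variable {n : ℕ} {X : Fin 4 → Matrix (Fin n) (Fin n) ℂ} {ι : Type} [Fintype ι] {d : ι → ℕ}
  {Y : (i : ι) → Fin 4 → Matrix (Fin (d i)) (Fin (d i)) ℂ}
  {V : (i : ι) → Matrix (Fin (d i)) (Fin n) ℂ}

lemma comb_one (hV : ∑ i, (V i)ᴴ * V i = 1) : ∑ i, (dd (V i))ᴴ * dd (V i) = 1 := by
  have : ∀ i, (dd (V i))ᴴ * dd (V i) = dd ((V i)ᴴ * V i) := by
    intro i; rw [dd_conjTranspose, ← dd_mul]
  simp only [this]
  rw [← dd_sum, hV, dd_one]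

lemma comb_blk (hc : ∀ j, X j = ∑ i, (V i)ᴴ * Y i j * V i) :
    blk X = ∑ i, (dd (V i))ᴴ * blk (Y i) * dd (V i) := by
  have : X = fun j => ∑ i, (V i)ᴴ * Y i j * V i := funext hc
  rw [this, blk_sum]
  exact Finset.sum_congr rfl fun i _ => blk_conj (Y i) (V i)

lemma intertwine_blk (hX : (blk X).IsHermitian) (hX2 : blk X * blk X = 1)
    (hY : ∀ i, Y i ∈ KH (d i)) (hV : ∑ i, (V i)ᴴ * V i = 1)
    (hc : ∀ j, X j = ∑ i, (V i)ᴴ * Y i j * V i) (i : ι) :
    blk (Y i) * dd (V i) = dd (V i) * blk X := by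
  have hW := comb_one hV
  have hZ := comb_blk hc
  set Z := blk X with hZdef
  have hZh : Zᴴ = Z := hX
  -- first relation
  have key1 : (1 - blk (Y i)) * (dd (V i) * (1 + Z)) = 0 := by
    refine psd_zero (hY i).2.1 ?_
    have hs : ∑ i, (dd (V i) * (1 + Z))ᴴ * (1 - blk (Y i)) * (dd (V i) * (1 + Z)) = 0 := by
      have : ∀ i, (dd (V i) * (1 + Z))ᴴ * (1 - blk (Y i)) * (dd (V i) * (1 + Z))
          = (1 + Z) * ((dd (V i))ᴴ * dd (V i)) * (1 + Z)
            - (1 + Z) * ((dd (V i))ᴴ * blk (Y i) * dd (V i)) * (1 + Z) := by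
        intro i
        rw [Matrix.conjTranspose_mul, Matrix.conjTranspose_add, Matrix.conjTranspose_one, hZh]
        simp only [Matrix.mul_sub, Matrix.sub_mul, Matrix.mul_one, Matrix.mul_assoc]
      simp only [this]
      rw [Finset.sum_sub_distrib, ← Finset.sum_mul, ← Finset.mul_sum, hW, ← Finset.sum_mul,
        ← Finset.mul_sum, ← hZ]
      have : (1 + Z) * 1 * (1 + Z) - (1 + Z) * Z * (1 + Z) = (1 + Z) * (1 - Z * Z) := by
        noncomm_ring
      rw [this, hX2]; simp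
    exact psd_sum_zero (fun i => (hY i).2.1.conjTranspose_mul_mul_same _) hs i
  have key2 : (1 + blk (Y i)) * (dd (V i) * (1 - Z)) = 0 := by
    refine psd_zero (hY i).2.2 ?_
    have hs : ∑ i, (dd (V i) * (1 - Z))ᴴ * (1 + blk (Y i)) * (dd (V i) * (1 - Z)) = 0 := by
      have : ∀ i, (dd (V i) * (1 - Z))ᴴ * (1 + blk (Y i)) * (dd (V i) * (1 - Z))
          = (1 - Z) * ((dd (V i))ᴴ * dd (V i)) * (1 - Z)
            + (1 - Z) * ((dd (V i))ᴴ * blk (Y i) * dd (V i)) * (1 - Z) := by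
        intro i
        rw [Matrix.conjTranspose_mul, Matrix.conjTranspose_sub, Matrix.conjTranspose_one, hZh]
        simp only [Matrix.mul_add, Matrix.add_mul, Matrix.mul_one, Matrix.mul_assoc]
      simp only [this]
      rw [Finset.sum_add_distrib, ← Finset.sum_mul, ← Finset.mul_sum, hW, ← Finset.sum_mul,
        ← Finset.mul_sum, ← hZ]
      have : (1 - Z) * 1 * (1 - Z) + (1 - Z) * Z * (1 - Z) = (1 - Z) * (1 - Z * Z) := by
        noncomm_ring
      rw [this, hX2]; simp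
    exact psd_sum_zero (fun i => (hY i).2.2.conjTranspose_mul_mul_same _) hs i
  have h2 : (2 : ℂ) • (blk (Y i) * dd (V i) - dd (V i) * Z)
      = (1 + blk (Y i)) * (dd (V i) * (1 - Z)) - (1 - blk (Y i)) * (dd (V i) * (1 + Z)) := by
    simp only [Matrix.mul_add, Matrix.add_mul, Matrix.mul_sub, Matrix.sub_mul, Matrix.mul_one,
      Matrix.one_mul, two_smul]
    abel
  rw [key1, key2, sub_zero] at h2
  have h3 := (smul_eq_zero.1 h2).resolve_left two_ne_zero
  exact sub_eq_zero.1 h3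

lemma intertwine_of_blk {m n : ℕ} {Y : Fin 4 → Matrix (Fin m) (Fin m) ℂ}
    {X : Fin 4 → Matrix (Fin n) (Fin n) ℂ} {V : Matrix (Fin m) (Fin n) ℂ}
    (h : blk Y * dd V = dd V * blk X) (j : Fin 4) : Y j * V = V * X j := by
  simp only [blk, dd, Matrix.fromBlocks_multiply] at h
  obtain ⟨h0, h1, h2, h3⟩ := Matrix.fromBlocks_inj.1 h
  simp only [Matrix.mul_zero, Matrix.zero_mul, add_zero, zero_add, Matrix.add_mul, Matrix.sub_mul,
    Matrix.mul_add, Matrix.mul_sub, Matrix.smul_mul, Matrix.mul_smul, smul_zero, sub_zero]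
    at h0 h1 h2 h3
  fin_cases j
  · exact h0
  · have : (2 : ℂ) • (Y 1 * V - V * X 1) = 0 := by
      have h4 : (2 : ℂ) • (Y 1 * V - V * X 1)
          = (Y 1 * V + Complex.I • (Y 2 * V) - (V * X 1 + Complex.I • (V * X 2)))
            + (Y 1 * V - Complex.I • (Y 2 * V) - (V * X 1 - Complex.I • (V * X 2))) := by
        rw [two_smul]; abel
      rw [h4, h1, h2]; simp
    exact sub_eq_zero.1 ((smul_eq_zero.1 this).resolve_left two_ne_zero)
  · have : (2 * Complex.I : ℂ) • (Y 2 * V - V * X 2) = 0 := by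
      have h4 : (2 * Complex.I : ℂ) • (Y 2 * V - V * X 2)
          = (Y 1 * V + Complex.I • (Y 2 * V) - (V * X 1 + Complex.I • (V * X 2)))
            - (Y 1 * V - Complex.I • (Y 2 * V) - (V * X 1 - Complex.I • (V * X 2))) := by
        rw [two_mul, add_smul, smul_sub]; abel
      rw [h4, h1, h2]; simp
    exact sub_eq_zero.1 ((smul_eq_zero.1 this).resolve_left (by simp))
  · exact h3

lemma intertwine (hXs : ∀ j, (X j).IsHermitian) (hX2 : blk X * blk X = 1)
    (hY : ∀ i, Y i ∈ KH (d i)) (hV : ∑ i, (V i)ᴴ * V i = 1)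
    (hc : ∀ j, X j = ∑ i, (V i)ᴴ * Y i j * V i) (i : ι) (j : Fin 4) :
    Y i j * V i = V i * X j :=
  intertwine_of_blk (intertwine_blk (blk_hermitian hXs) hX2 hY hV hc i) j

end Intertwine

/-! ## `KH` is matrix convex -/

lemma KH_convex {n : ℕ} {X : Fin 4 → Matrix (Fin n) (Fin n) ℂ} (h : IsComb KH n X) :
    X ∈ KH n := by
  obtain ⟨ι, _, d, Y, V, -, hY, hV, hc⟩ := h
  have hW := comb_one hV
  have hZ := comb_blk hc
  refine ⟨?_, ?_, ?_⟩
  · intro j
    rw [hc j]
    have : ∀ i, ((V i)ᴴ * Y i j * V i).IsHermitian := fun i =>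
      Matrix.isHermitian_conjTranspose_mul_mul _ ((hY i).1 j)
    show (∑ i, (V i)ᴴ * Y i j * V i)ᴴ = _
    rw [Matrix.conjTranspose_sum]
    exact Finset.sum_congr rfl fun i _ => this i
  · have : 1 - blk X = ∑ i, (dd (V i))ᴴ * (1 - blk (Y i)) * dd (V i) := by
      simp only [Matrix.mul_sub, Matrix.sub_mul, Matrix.mul_one]
      rw [Finset.sum_sub_distrib, hW, hZ]
    rw [this]
    exact Matrix.posSemidef_sum _ fun i _ => (hY i).2.1.conjTranspose_mul_mul_same _
  · have : 1 + blk X = ∑ i, (dd (V i))ᴴ * (1 + blk (Y i)) * dd (V i) := by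
      simp only [Matrix.mul_add, Matrix.add_mul, Matrix.mul_one]
      rw [Finset.sum_add_distrib, hW, hZ]
    rw [this]
    exact Matrix.posSemidef_sum _ fun i _ => (hY i).2.2.conjTranspose_mul_mul_same _

lemma isComb_single {g : ℕ} {S : MSet g} {m n : ℕ} (hm : 0 < m)
    {Y : Fin g → Matrix (Fin m) (Fin m) ℂ} (hY : Y ∈ S m) {V : Matrix (Fin m) (Fin n) ℂ}
    (hV : Vᴴ * V = 1) : IsComb S n (fun j => Vᴴ * Y j * V) :=
  ⟨Unit, inferInstance, fun _ => m, fun _ => Y, fun _ => V, fun _ => hm, fun _ => hY,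
    by simpa using hV, fun j => by simp⟩

lemma mem_KH_of_sq {n : ℕ} {X : Fin 4 → Matrix (Fin n) (Fin n) ℂ}
    (hXs : ∀ j, (X j).IsHermitian) (hX2 : blk X * blk X = 1) : X ∈ KH n := by
  have hh : (blk X)ᴴ = blk X := blk_hermitian hXs
  refine ⟨hXs, ?_, ?_⟩
  · have : 1 - blk X = (1 / 2 : ℝ) • ((1 - blk X)ᴴ * (1 - blk X)) := by
      rw [Matrix.conjTranspose_sub, Matrix.conjTranspose_one, hh]
      have h2 : (1 - blk X) * (1 - blk X) = (2 : ℝ) • (1 - blk X) := by
        have : (1 - blk X) * (1 - blk X) = 1 - blk X - blk X + blk X * blk X := by noncomm_ring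
        rw [this, hX2, two_smul]; abel
      rw [h2, smul_smul]; norm_num
    rw [this]
    exact (Matrix.posSemidef_conjTranspose_mul_self _).smul (by norm_num)
  · have : 1 + blk X = (1 / 2 : ℝ) • ((1 + blk X)ᴴ * (1 + blk X)) := by
      rw [Matrix.conjTranspose_add, Matrix.conjTranspose_one, hh]
      have h2 : (1 + blk X) * (1 + blk X) = (2 : ℝ) • (1 + blk X) := by
        have : (1 + blk X) * (1 + blk X) = 1 + blk X + blk X + blk X * blk X := by noncomm_ring
        rw [this, hX2, two_smul]; abel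
      rw [h2, smul_smul]; norm_num
    rw [this]
    exact (Matrix.posSemidef_conjTranspose_mul_self _).smul (by norm_num)

/-- An isometry between spaces of the same dimension is unitary. -/
lemma isometry_square {m n : ℕ} {U : Matrix (Fin m) (Fin n) ℂ} (hU : Uᴴ * U = 1) (h : m = n) :
    U * Uᴴ = 1 := by
  subst h
  exact mul_eq_one_comm.1 hU

lemma isometry_le {m n : ℕ} {U : Matrix (Fin m) (Fin n) ℂ} (hU : Uᴴ * U = 1) : n ≤ m := by
  have h1 : (Uᴴ * U).rank ≤ U.rank := Matrix.rank_mul_le_right _ _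
  rw [hU, Matrix.rank_one] at h1
  have h2 := Matrix.rank_le_card_height U
  simp at h1 h2
  exact h1.trans h2

/-- Irreducible tuples with `(blk X)² = 1` are free extreme. -/
lemma free_of_irred {n : ℕ} (hn : 0 < n) {X : Fin 4 → Matrix (Fin n) (Fin n) ℂ}
    (hXs : ∀ j, (X j).IsHermitian) (hX2 : blk X * blk X = 1)
    (hirr : ∀ Q : Matrix (Fin n) (Fin n) ℂ, Q.IsHermitian → Q * Q = Q →
      (∀ j, Q * X j = X j * Q) → Q = 0 ∨ Q = 1) : X ∈ freeExt KH n := by
  refine ⟨hn, mem_KH_of_sq hXs hX2, ?_⟩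
  intro ι _ d Y V hd hY hV hc hne i
  have hint := intertwine hXs hX2 hY hV hc i
  have hYs : ∀ j, (Y i j)ᴴ = Y i j := fun j => (hY i).1 j
  have hXs' : ∀ j, (X j)ᴴ = X j := fun j => hXs j
  have hcomm : ∀ j, (V i)ᴴ * V i * X j = X j * ((V i)ᴴ * V i) := by
    intro j
    have h1 := hint j
    have h2 : (V i)ᴴ * Y i j = X j * (V i)ᴴ := by
      have := congrArg Matrix.conjTranspose h1
      rwa [Matrix.conjTranspose_mul, Matrix.conjTranspose_mul, hXs', hYs] at this
    rw [Matrix.mul_assoc, ← h1, ← Matrix.mul_assoc, h2, Matrix.mul_assoc]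
  obtain ⟨c, hcV⟩ := scalar_of_irred hn hirr (Matrix.isHermitian_conjTranspose_mul_self (V i)) hcomm
  have hc0 : 0 < c := by
    have h1 := (Matrix.posSemidef_conjTranspose_mul_self (V i)).trace_nonneg
    rw [hcV] at h1
    have h2 : ((c : ℂ) • (1 : Matrix (Fin n) (Fin n) ℂ)).trace = ((c * n : ℝ) : ℂ) := by
      rw [Matrix.trace_smul, Matrix.trace_one]; simp
    rw [h2, Complex.zero_le_real] at h1
    have hn' : (0 : ℝ) < n := by exact_mod_cast hn
    rcases lt_trichotomy c 0 with h | h | h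
    · nlinarith
    · exfalso
      rw [h] at hcV
      simp at hcV
      exact hne i hcV
    · exact h
  obtain ⟨U, hUdef⟩ : ∃ U : Matrix (Fin (d i)) (Fin n) ℂ, U = (((Real.sqrt c)⁻¹ : ℝ) : ℂ) • V i :=
    ⟨_, rfl⟩
  have hU : Uᴴ * U = 1 := by
    rw [hUdef, Matrix.conjTranspose_smul, Matrix.smul_mul, Matrix.mul_smul, hcV, smul_smul,
      smul_smul]
    have : star (((Real.sqrt c)⁻¹ : ℝ) : ℂ) * (((Real.sqrt c)⁻¹ : ℝ) : ℂ) * (c : ℂ) = 1 := by
      rw [Complex.star_def, Complex.conj_ofReal, ← Complex.ofReal_mul, ← Complex.ofReal_mul]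
      have : (Real.sqrt c)⁻¹ * (Real.sqrt c)⁻¹ * c = 1 := by
        have h3 := Real.mul_self_sqrt hc0.le
        have h4 := Real.sqrt_pos.2 hc0
        field_simp
        nlinarith
      rw [this]; simp
    rw [this, one_smul]
  have hYU : ∀ j, Y i j * U = U * X j := by
    intro j
    rw [hUdef, Matrix.mul_smul, hint j, Matrix.smul_mul]
  have hUY : ∀ j, Uᴴ * Y i j = X j * Uᴴ := by
    intro j
    have := congrArg Matrix.conjTranspose (hYU j)
    rwa [Matrix.conjTranspose_mul, Matrix.conjTranspose_mul, hXs', hYs] at this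
  rcases lt_or_eq_of_le (isometry_le hU) with hlt | heq
  · right
    refine ⟨hlt, ?_⟩
    have hQh : (1 - U * Uᴴ).IsHermitian := by
      show (1 - U * Uᴴ)ᴴ = _
      simp
    have hQ2 : (1 - U * Uᴴ) * (1 - U * Uᴴ) = 1 - U * Uᴴ := by
      have h1 : U * Uᴴ * (U * Uᴴ) = U * Uᴴ := by
        rw [Matrix.mul_assoc U, ← Matrix.mul_assoc Uᴴ, hU, Matrix.one_mul]
      have : (1 - U * Uᴴ) * (1 - U * Uᴴ) = 1 - U * Uᴴ - U * Uᴴ + U * Uᴴ * (U * Uᴴ) := by
        noncomm_ring
      rw [this, h1]; abel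
    obtain ⟨k, U', hU', hUU'⟩ := exists_isometry hQh hQ2
    have hUU0 : U'ᴴ * U = 0 := by
      calc U'ᴴ * U = (U'ᴴ * U') * U'ᴴ * U := by rw [hU', Matrix.one_mul]
        _ = U'ᴴ * (U' * U'ᴴ) * U := by simp only [Matrix.mul_assoc]
        _ = U'ᴴ * (U - U * (Uᴴ * U)) := by
            rw [hUU']
            simp only [Matrix.mul_sub, Matrix.sub_mul, Matrix.mul_one, Matrix.mul_assoc]
        _ = 0 := by rw [hU]; simp
    have hUU1 : Uᴴ * U' = 0 := by
      have := congrArg Matrix.conjTranspose hUU0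
      simpa using this
    refine ⟨k, fun j => U'ᴴ * Y i j * U', ?_, ?_, ?_⟩
    · rcases Nat.eq_zero_or_pos k with hk | hk
      · exfalso
        subst hk
        have h0 : U' * U'ᴴ = 0 := by
          ext a b; simp [Matrix.mul_apply]
        rw [h0] at hUU'
        have h1 : U * Uᴴ = 1 := (sub_eq_zero.1 hUU'.symm).symm
        have h2 : (Uᴴ)ᴴ * Uᴴ = 1 := by rw [Matrix.conjTranspose_conjTranspose]; exact h1
        exact absurd (isometry_le h2) (by omega)
      · exact hk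
    · exact KH_convex (isComb_single (hd i) (hY i) hU')
    · refine ⟨Matrix.fromCols U U', ?_, ?_, ?_⟩
      · rw [Matrix.conjTranspose_fromCols_eq_fromRows_conjTranspose, Matrix.fromRows_mul_fromCols,
          hU, hU', hUU0, hUU1, Matrix.fromBlocks_one]
      · rw [Matrix.conjTranspose_fromCols_eq_fromRows_conjTranspose, Matrix.fromCols_mul_fromRows,
          hUU']
        abel
      · intro j
        rw [Matrix.conjTranspose_fromCols_eq_fromRows_conjTranspose,
          Matrix.fromCols_mul_fromBlocks, Matrix.fromCols_mul_fromRows]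
        simp only [Matrix.mul_zero, add_zero, zero_add]
        have h1 : U * X j * Uᴴ = Y i j * (U * Uᴴ) := by rw [← hYU j, Matrix.mul_assoc]
        have h2 : U * X j * Uᴴ = (U * Uᴴ) * Y i j := by
          rw [Matrix.mul_assoc, ← hUY j, Matrix.mul_assoc]
        have h3 : U' * (U'ᴴ * Y i j * U') * U'ᴴ = (U' * U'ᴴ) * Y i j * (U' * U'ᴴ) := by
          simp only [Matrix.mul_assoc]
        rw [h3, hUU']
        have h4 : (1 - U * Uᴴ) * Y i j * (1 - U * Uᴴ)
            = Y i j - Y i j * (U * Uᴴ) - (U * Uᴴ) * Y i j + (U * Uᴴ) * Y i j * (U * Uᴴ) := by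
          noncomm_ring
        have h5 : (U * Uᴴ) * Y i j * (U * Uᴴ) = (U * Uᴴ) * Y i j := by
          rw [← h2, Matrix.mul_assoc (U * X j), ← Matrix.mul_assoc Uᴴ, hU, Matrix.one_mul]
        rw [h4, h5, h1]
        abel
  · left
    exact ⟨heq.symm, U, hU, isometry_square hU heq.symm, fun j => by
      rw [← hYU j, Matrix.mul_assoc, isometry_square hU heq.symm, Matrix.mul_one]⟩

/-- Combining two matrix convex combinations. -/
lemma comb_two {g : ℕ} {S : MSet g} {k l n : ℕ} {X₁ : Fin g → Matrix (Fin k) (Fin k) ℂ}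
    {X₂ : Fin g → Matrix (Fin l) (Fin l) ℂ} {X : Fin g → Matrix (Fin n) (Fin n) ℂ}
    (h₁ : IsComb S k X₁) (h₂ : IsComb S l X₂) {A : Matrix (Fin k) (Fin n) ℂ}
    {B : Matrix (Fin l) (Fin n) ℂ} (hAB : Aᴴ * A + Bᴴ * B = 1)
    (hX : ∀ j, X j = Aᴴ * X₁ j * A + Bᴴ * X₂ j * B) : IsComb S n X := by
  obtain ⟨ι, _, d, Y, V, hd, hY, hV, hc⟩ := h₁
  obtain ⟨ι', _, d', Y', V', hd', hY', hV', hc'⟩ := h₂
  refine ⟨ι ⊕ ι', inferInstance, Sum.elim d d',
    fun i => match i with | Sum.inl i => Y i | Sum.inr i => Y' i,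
    fun i => match i with | Sum.inl i => V i * A | Sum.inr i => V' i * B, ?_, ?_, ?_, ?_⟩
  · rintro (i | i)
    · exact hd i
    · exact hd' i
  · rintro (i | i)
    · exact hY i
    · exact hY' i
  · rw [Fintype.sum_sum_type]
    have e1 : ∀ i, (V i * A)ᴴ * (V i * A) = Aᴴ * ((V i)ᴴ * V i) * A := by
      intro i; rw [Matrix.conjTranspose_mul]; simp only [Matrix.mul_assoc]
    have e2 : ∀ i, (V' i * B)ᴴ * (V' i * B) = Bᴴ * ((V' i)ᴴ * V' i) * B := by
      intro i; rw [Matrix.conjTranspose_mul]; simp only [Matrix.mul_assoc]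
    show ∑ i, (V i * A)ᴴ * (V i * A) + ∑ i, (V' i * B)ᴴ * (V' i * B) = 1
    rw [Finset.sum_congr rfl fun i _ => e1 i, Finset.sum_congr rfl fun i _ => e2 i,
      ← Matrix.sum_mul, ← Matrix.mul_sum, ← Matrix.sum_mul, ← Matrix.mul_sum, hV, hV',
      Matrix.mul_one, Matrix.mul_one, hAB]
  · intro j
    rw [Fintype.sum_sum_type]
    have e1 : ∀ i, (V i * A)ᴴ * Y i j * (V i * A) = Aᴴ * ((V i)ᴴ * Y i j * V i) * A := by
      intro i; rw [Matrix.conjTranspose_mul]; simp only [Matrix.mul_assoc]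
    have e2 : ∀ i, (V' i * B)ᴴ * Y' i j * (V' i * B) = Bᴴ * ((V' i)ᴴ * Y' i j * V' i) * B := by
      intro i; rw [Matrix.conjTranspose_mul]; simp only [Matrix.mul_assoc]
    show X j = ∑ i, (V i * A)ᴴ * Y i j * (V i * A) + ∑ i, (V' i * B)ᴴ * Y' i j * (V' i * B)
    rw [Finset.sum_congr rfl fun i _ => e1 i, Finset.sum_congr rfl fun i _ => e2 i,
      ← Matrix.sum_mul, ← Matrix.mul_sum, ← Matrix.sum_mul, ← Matrix.mul_sum, ← hc, ← hc', hX]

lemma blk_comm {n : ℕ} {X : Fin 4 → Matrix (Fin n) (Fin n) ℂ} {Q : Matrix (Fin n) (Fin n) ℂ}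
    (h : ∀ j, Q * X j = X j * Q) : dd Q * blk X = blk X * dd Q := by
  simp only [blk, dd, Matrix.fromBlocks_multiply, Matrix.mul_add, Matrix.mul_sub, Matrix.add_mul,
    Matrix.sub_mul, Matrix.mul_smul, Matrix.smul_mul, h, Matrix.mul_zero, Matrix.zero_mul,
    add_zero, zero_add, smul_zero, sub_zero]

lemma compress_sq {n k : ℕ} {X : Fin 4 → Matrix (Fin n) (Fin n) ℂ} (hX2 : blk X * blk X = 1)
    {U : Matrix (Fin n) (Fin k) ℂ} (hU : Uᴴ * U = 1)
    (hc : ∀ j, (U * Uᴴ) * X j = X j * (U * Uᴴ)) :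
    blk (fun j => Uᴴ * X j * U) * blk (fun j => Uᴴ * X j * U) = 1 := by
  rw [blk_conj]
  have hdd : (dd U)ᴴ * dd U = 1 := by rw [dd_conjTranspose, ← dd_mul, hU, dd_one]
  have hdq : dd U * (dd U)ᴴ = dd (U * Uᴴ) := by rw [dd_conjTranspose, ← dd_mul]
  have hcm := blk_comm hc
  calc (dd U)ᴴ * blk X * dd U * ((dd U)ᴴ * blk X * dd U)
      = (dd U)ᴴ * blk X * ((dd U * (dd U)ᴴ) * blk X) * dd U := by simp only [Matrix.mul_assoc]
    _ = (dd U)ᴴ * (blk X * blk X) * (dd U * (dd U)ᴴ) * dd U := by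
        rw [hdq, hcm]; simp only [Matrix.mul_assoc]
    _ = ((dd U)ᴴ * dd U) * ((dd U)ᴴ * dd U) := by
        rw [hX2, Matrix.mul_one]; simp only [Matrix.mul_assoc]
    _ = 1 := by rw [hdd, Matrix.mul_one]

/-- Tuples with `(blk X)² = 1` are matrix convex combinations of free extreme points. -/
lemma comb_of_sq (n : ℕ) : 0 < n → ∀ X : Fin 4 → Matrix (Fin n) (Fin n) ℂ,
    (∀ j, (X j).IsHermitian) → blk X * blk X = 1 → IsComb (freeExt KH) n X := by
  induction n using Nat.strong_induction_on with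
  | _ n ih =>
    intro hn X hXs hX2
    by_cases hirr : ∀ Q : Matrix (Fin n) (Fin n) ℂ, Q.IsHermitian → Q * Q = Q →
      (∀ j, Q * X j = X j * Q) → Q = 0 ∨ Q = 1
    · have := isComb_single hn (free_of_irred hn hXs hX2 hirr)
        (V := (1 : Matrix (Fin n) (Fin n) ℂ)) (by simp)
      simpa using this
    · push Not at hirr
      obtain ⟨Q, hQ, hQ2, hQc, hQ0, hQ1⟩ := hirr
      have piece : ∀ Q' : Matrix (Fin n) (Fin n) ℂ, Q'.IsHermitian → Q' * Q' = Q' →
          (∀ j, Q' * X j = X j * Q') → Q' ≠ 0 → Q' ≠ 1 →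
          ∃ (k : ℕ) (X' : Fin 4 → Matrix (Fin k) (Fin k) ℂ) (U : Matrix (Fin n) (Fin k) ℂ),
            IsComb (freeExt KH) k X' ∧ U * Uᴴ = Q' ∧ ∀ j, U * X' j * Uᴴ = Q' * X j := by
        intro Q' h1 h2 h3 h4 h5
        obtain ⟨k, U, hU, hUQ⟩ := exists_isometry h1 h2
        have hkn : k < n := by
          rcases lt_or_eq_of_le (isometry_le hU) with h | h
          · exact h
          · exact absurd (hUQ.symm.trans (isometry_square hU h.symm)) h5
        have hk : 0 < k := by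
          rcases Nat.eq_zero_or_pos k with hk | hk
          · exfalso
            subst hk
            apply h4
            rw [← hUQ]
            ext a b; simp [Matrix.mul_apply]
          · exact hk
        have hc' : ∀ j, (U * Uᴴ) * X j = X j * (U * Uᴴ) := by rw [hUQ]; exact h3
        refine ⟨k, fun j => Uᴴ * X j * U, U, ih k hkn hk _ ?_ (compress_sq hX2 hU hc'), hUQ, ?_⟩
        · intro j
          exact Matrix.isHermitian_conjTranspose_mul_mul _ (hXs j)
        · intro j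
          have e : U * (Uᴴ * X j * U) * Uᴴ = (U * Uᴴ) * X j * (U * Uᴴ) := by
            simp only [Matrix.mul_assoc]
          rw [e, hUQ, h3, Matrix.mul_assoc, h2]
      obtain ⟨k, X₁, U, hX₁, hU, hUX⟩ := piece Q hQ hQ2 hQc hQ0 hQ1
      have hR : (1 - Q).IsHermitian := Matrix.isHermitian_one.sub hQ
      have hR2 : (1 - Q) * (1 - Q) = 1 - Q := by
        have : (1 - Q) * (1 - Q) = 1 - Q - Q + Q * Q := by noncomm_ring
        rw [this, hQ2]; abel
      obtain ⟨l, X₂, W, hX₂, hW, hWX⟩ := piece (1 - Q) hR hR2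
        (fun j => by rw [Matrix.sub_mul, Matrix.mul_sub, Matrix.one_mul, Matrix.mul_one, hQc])
        (fun h => hQ1 (sub_eq_zero.1 h).symm) (fun h => hQ0 (by simpa using h))
      refine comb_two hX₁ hX₂ (A := Uᴴ) (B := Wᴴ) ?_ ?_
      · rw [Matrix.conjTranspose_conjTranspose, Matrix.conjTranspose_conjTranspose, hU, hW]
        abel
      · intro j
        rw [Matrix.conjTranspose_conjTranspose, Matrix.conjTranspose_conjTranspose, hUX, hWX,
          Matrix.sub_mul, Matrix.one_mul]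
        abel

lemma unblk_lin {α : Type} (c d : ℂ) (M N : Matrix (α ⊕ α) (α ⊕ α) ℂ) (j : Fin 4) :
    unblk (c • M + d • N) j = c • unblk M j + d • unblk N j := by
  ext a b
  fin_cases j
  · rfl
  · show 1 / 2 * ((c * M (Sum.inl a) (Sum.inr b) + d * N (Sum.inl a) (Sum.inr b))
      + (c * M (Sum.inr a) (Sum.inl b) + d * N (Sum.inr a) (Sum.inl b)))
      = c * (1 / 2 * (M (Sum.inl a) (Sum.inr b) + M (Sum.inr a) (Sum.inl b)))
      + d * (1 / 2 * (N (Sum.inl a) (Sum.inr b) + N (Sum.inr a) (Sum.inl b)))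
    ring
  · show -Complex.I / 2 * ((c * M (Sum.inl a) (Sum.inr b) + d * N (Sum.inl a) (Sum.inr b))
      - (c * M (Sum.inr a) (Sum.inl b) + d * N (Sum.inr a) (Sum.inl b)))
      = c * (-Complex.I / 2 * (M (Sum.inl a) (Sum.inr b) - M (Sum.inr a) (Sum.inl b)))
      + d * (-Complex.I / 2 * (N (Sum.inl a) (Sum.inr b) - N (Sum.inr a) (Sum.inl b)))
    ring
  · rfl

/-- `KH` is the matrix convex hull of its free extreme points. -/
lemma comb_of_mem {n : ℕ} (hn : 0 < n) {X : Fin 4 → Matrix (Fin n) (Fin n) ℂ} (hX : X ∈ KH n) :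
    IsComb (freeExt KH) n X := by
  obtain ⟨hXs, hm, hp⟩ := hX
  obtain ⟨U, l, hU1, hU2, hU⟩ := spectral (blk_hermitian hXs)
  have hD : Matrix.diagonal (fun i => (l i : ℂ)) = Uᴴ * blk X * U := by
    rw [hU]
    calc Matrix.diagonal (fun i => (l i : ℂ))
        = (Uᴴ * U) * Matrix.diagonal (fun i => (l i : ℂ)) * (Uᴴ * U) := by rw [hU1]; simp
      _ = _ := by simp only [Matrix.mul_assoc]
  have hl1 : ∀ i, l i ≤ 1 := by
    intro i
    have h1 := (hm.conjTranspose_mul_mul_same U).diag_nonneg (i := i)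
    have h2 : Uᴴ * (1 - blk X) * U = 1 - Matrix.diagonal (fun i => (l i : ℂ)) := by
      rw [hD, Matrix.mul_sub, Matrix.sub_mul, Matrix.mul_one, hU1]
    rw [h2, Matrix.sub_apply, Matrix.one_apply_eq, Matrix.diagonal_apply_eq] at h1
    have h3 : (0 : ℂ) ≤ ((1 - l i : ℝ) : ℂ) := by simpa using h1
    have := Complex.zero_le_real.1 h3
    linarith
  have hl2 : ∀ i, -1 ≤ l i := by
    intro i
    have h1 := (hp.conjTranspose_mul_mul_same U).diag_nonneg (i := i)
    have h2 : Uᴴ * (1 + blk X) * U = 1 + Matrix.diagonal (fun i => (l i : ℂ)) := by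
      rw [hD, Matrix.mul_add, Matrix.add_mul, Matrix.mul_one, hU1]
    rw [h2, Matrix.add_apply, Matrix.one_apply_eq, Matrix.diagonal_apply_eq] at h1
    have h3 : (0 : ℂ) ≤ ((1 + l i : ℝ) : ℂ) := by simpa using h1
    have := Complex.zero_le_real.1 h3
    linarith
  let C : Set (Fin n ⊕ Fin n → ℝ) :=
    {m | IsComb (freeExt KH) n (unblk (U * Matrix.diagonal (fun i => (m i : ℂ)) * Uᴴ))}
  have hC : Convex ℝ C := by
    intro m₁ h₁ m₂ h₂ a b ha hb hab
    refine comb_two h₁ h₂ (A := ((Real.sqrt a : ℝ) : ℂ) • (1 : Matrix (Fin n) (Fin n) ℂ))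
      (B := ((Real.sqrt b : ℝ) : ℂ) • (1 : Matrix (Fin n) (Fin n) ℂ)) ?_ ?_
    · rw [Matrix.conjTranspose_smul, Matrix.conjTranspose_smul, Matrix.conjTranspose_one]
      simp only [Matrix.mul_smul, Matrix.mul_one, smul_smul, Complex.star_def,
        Complex.conj_ofReal]
      rw [← add_smul, ← Complex.ofReal_mul, ← Complex.ofReal_mul, ← Complex.ofReal_add,
        Real.mul_self_sqrt ha, Real.mul_self_sqrt hb, hab]
      simp
    · intro j
      rw [Matrix.conjTranspose_smul, Matrix.conjTranspose_smul, Matrix.conjTranspose_one]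
      simp only [Matrix.smul_mul, Matrix.mul_smul, Matrix.mul_one, Matrix.one_mul, smul_smul,
        Complex.star_def, Complex.conj_ofReal]
      rw [← Complex.ofReal_mul, ← Complex.ofReal_mul, Real.mul_self_sqrt ha,
        Real.mul_self_sqrt hb, ← unblk_lin]
      congr 1
      have hd : Matrix.diagonal (fun i => (((a • m₁ + b • m₂) i : ℝ) : ℂ))
          = (a : ℂ) • Matrix.diagonal (fun i => (m₁ i : ℂ))
            + (b : ℂ) • Matrix.diagonal (fun i => (m₂ i : ℂ)) := by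
        ext p q
        by_cases hpq : p = q
        · subst hpq; simp
        · simp [hpq]
      rw [hd, Matrix.mul_add, Matrix.add_mul, Matrix.mul_smul, Matrix.mul_smul, Matrix.smul_mul,
        Matrix.smul_mul]
  have hsub : (Set.univ : Set (Fin n ⊕ Fin n)).pi (fun _ => ({-1, 1} : Set ℝ)) ⊆ C := by
    intro m hm
    have hm' : ∀ i, m i = -1 ∨ m i = 1 := fun i => by simpa using hm i (Set.mem_univ i)
    have hDh : (U * Matrix.diagonal (fun i => (m i : ℂ)) * Uᴴ).IsHermitian := by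
      apply Matrix.isHermitian_mul_mul_conjTranspose
      show (Matrix.diagonal (fun i => (m i : ℂ)))ᴴ = _
      rw [Matrix.diagonal_conjTranspose]
      congr 1
      ext i
      simp
    refine comb_of_sq n hn _ (unblk_hermitian hDh) ?_
    rw [blk_unblk]
    have hmm : Matrix.diagonal (fun i => (m i : ℂ)) * Matrix.diagonal (fun i => (m i : ℂ)) = 1 := by
      rw [Matrix.diagonal_mul_diagonal, ← Matrix.diagonal_one]
      congr 1
      ext i
      rcases hm' i with h | h <;> simp [h]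
    calc U * Matrix.diagonal (fun i => (m i : ℂ)) * Uᴴ
          * (U * Matrix.diagonal (fun i => (m i : ℂ)) * Uᴴ)
        = U * Matrix.diagonal (fun i => (m i : ℂ)) * (Uᴴ * U)
          * Matrix.diagonal (fun i => (m i : ℂ)) * Uᴴ := by simp only [Matrix.mul_assoc]
      _ = U * (Matrix.diagonal (fun i => (m i : ℂ)) * Matrix.diagonal (fun i => (m i : ℂ))) * Uᴴ := by
          rw [hU1, Matrix.mul_one]; simp only [Matrix.mul_assoc]
      _ = 1 := by rw [hmm, Matrix.mul_one, hU2]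
  have hmem : l ∈ C := by
    apply convexHull_min hsub hC
    rw [convexHull_pi]
    intro i _
    rw [convexHull_pair, segment_eq_Icc (by norm_num)]
    exact ⟨hl2 i, hl1 i⟩
  have : unblk (U * Matrix.diagonal (fun i => (l i : ℂ)) * Uᴴ) = X := by
    rw [← hU, unblk_blk]
  have h2 : IsComb (freeExt KH) n (unblk (U * Matrix.diagonal (fun i => (l i : ℂ)) * Uᴴ)) := hmem
  rwa [this] at h2

/-! ## `KH` is closed and bounded -/

lemma isClosed_psd {α : Type} [Fintype α] [DecidableEq α] :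
    IsClosed {M : Matrix α α ℂ | M.PosSemidef} := by
  simp only [Matrix.posSemidef_iff_dotProduct_mulVec, Set.ofPred_and, Set.ofPred_forall]
  have : OrderClosedTopology ℂ := Complex.orderClosedTopology
  refine IsClosed.inter ?_ (isClosed_iInter fun x => ?_)
  · exact isClosed_eq continuous_id.matrix_conjTranspose continuous_id
  · exact isClosed_le continuous_const
      (continuous_const.dotProduct (continuous_id.matrix_mulVec continuous_const))

lemma continuous_blk (n : ℕ) :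
    Continuous (fun X : Fin 4 → Matrix (Fin n) (Fin n) ℂ => blk X) := by
  have c : ∀ j : Fin 4, Continuous (fun X : Fin 4 → Matrix (Fin n) (Fin n) ℂ => X j) :=
    fun j => continuous_apply j
  unfold blk
  exact Continuous.matrix_fromBlocks (c 0) ((c 1).add ((c 2).const_smul Complex.I))
    ((c 1).sub ((c 2).const_smul Complex.I)) (c 3)

lemma KH_closed (n : ℕ) : IsClosed (KH n) := by
  have h1 : IsClosed {X : Fin 4 → Matrix (Fin n) (Fin n) ℂ | ∀ j, (X j).IsHermitian} := by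
    simp only [Set.ofPred_forall]
    exact isClosed_iInter fun j =>
      isClosed_eq (continuous_apply j).matrix_conjTranspose (continuous_apply j)
  have h2 : IsClosed {X : Fin 4 → Matrix (Fin n) (Fin n) ℂ | (1 - blk X).PosSemidef} :=
    isClosed_psd.preimage (continuous_const.sub (continuous_blk n))
  have h3 : IsClosed {X : Fin 4 → Matrix (Fin n) (Fin n) ℂ | (1 + blk X).PosSemidef} :=
    isClosed_psd.preimage (continuous_const.add (continuous_blk n))
  exact h1.inter (h2.inter h3)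

lemma sq_psd {n : ℕ} {X : Fin 4 → Matrix (Fin n) (Fin n) ℂ} (hX : X ∈ KH n) :
    (1 - blk X * blk X).PosSemidef := by
  obtain ⟨hXs, hm, hp⟩ := hX
  have hh : (blk X)ᴴ = blk X := blk_hermitian hXs
  have e : 1 - blk X * blk X = (1 / 2 : ℝ) • ((1 - blk X)ᴴ * (1 + blk X) * (1 - blk X)
      + (1 + blk X)ᴴ * (1 - blk X) * (1 + blk X)) := by
    rw [Matrix.conjTranspose_sub, Matrix.conjTranspose_add, Matrix.conjTranspose_one, hh]
    have : (1 - blk X) * (1 + blk X) * (1 - blk X) + (1 + blk X) * (1 - blk X) * (1 + blk X)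
        = (2 : ℝ) • (1 - blk X * blk X) := by
      rw [two_smul]; noncomm_ring
    rw [this, smul_smul]; norm_num
  rw [e]
  exact ((hp.conjTranspose_mul_mul_same _).add (hm.conjTranspose_mul_mul_same _)).smul
    (by norm_num)

lemma blk_entry {n : ℕ} {X : Fin 4 → Matrix (Fin n) (Fin n) ℂ} (hX : X ∈ KH n)
    (a b : Fin n ⊕ Fin n) : ‖blk X a b‖ ≤ 1 := by
  have h1 := (sq_psd hX).diag_nonneg (i := a)
  have hh : (blk X)ᴴ = blk X := blk_hermitian hX.1
  have h2 : (1 - blk X * blk X) a a = ((1 - ∑ c, ‖blk X a c‖ ^ 2 : ℝ) : ℂ) := by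
    rw [Matrix.sub_apply, Matrix.one_apply_eq, Matrix.mul_apply]
    push_cast
    congr 1
    refine Finset.sum_congr rfl fun c _ => ?_
    have h3 : blk X c a = star (blk X a c) := by
      conv_lhs => rw [← hh]
      rfl
    rw [h3, Complex.star_def, Complex.mul_conj, Complex.normSq_eq_norm_sq]
    push_cast
    rfl
  rw [h2, Complex.zero_le_real] at h1
  have h4 : ‖blk X a b‖ ^ 2 ≤ ∑ c, ‖blk X a c‖ ^ 2 :=
    Finset.single_le_sum (f := fun c => ‖blk X a c‖ ^ 2) (fun c _ => by positivity)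
      (Finset.mem_univ b)
  have h5 : ‖blk X a b‖ ^ 2 ≤ 1 := by linarith
  exact (sq_le_one_iff₀ (norm_nonneg _)).1 h5

lemma KH_bounded {n : ℕ} {X : Fin 4 → Matrix (Fin n) (Fin n) ℂ} (hX : X ∈ KH n) (j : Fin 4)
    (a b : Fin n) : ‖X j a b‖ ≤ 1 := by
  have h := blk_entry hX
  have e : X j a b = unblk (blk X) j a b := by rw [unblk_blk]
  rw [e]
  have h12 := h (Sum.inl a) (Sum.inr b)
  have h21 := h (Sum.inr a) (Sum.inl b)
  fin_cases j
  · exact h (Sum.inl a) (Sum.inl b)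
  · show ‖1 / 2 * (blk X (Sum.inl a) (Sum.inr b) + blk X (Sum.inr a) (Sum.inl b))‖ ≤ 1
    rw [norm_mul]
    have := norm_add_le (blk X (Sum.inl a) (Sum.inr b)) (blk X (Sum.inr a) (Sum.inl b))
    have h3 : ‖(1 / 2 : ℂ)‖ = 1 / 2 := by simp
    rw [h3]; linarith
  · show ‖-Complex.I / 2 * (blk X (Sum.inl a) (Sum.inr b) - blk X (Sum.inr a) (Sum.inl b))‖ ≤ 1
    rw [norm_mul]
    have := norm_sub_le (blk X (Sum.inl a) (Sum.inr b)) (blk X (Sum.inr a) (Sum.inl b))
    have h3 : ‖(-Complex.I / 2 : ℂ)‖ = 1 / 2 := by simp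
    rw [h3]; linarith
  · exact h (Sum.inr a) (Sum.inr b)

/-! ## The projection -/

/-- The point `(1, 0, 0)` of level one. -/
def x0 : Fin 3 → Matrix (Fin 1) (Fin 1) ℂ := ![1, 0, 0]

lemma x0_mem : x0 ∈ proj KH 3 (by norm_num) 1 := by
  refine ⟨![1, 0, 0, 0], ⟨?_, ?_, ?_⟩, ?_⟩
  · intro j
    fin_cases j
    · exact Matrix.isHermitian_one
    · exact Matrix.isHermitian_zero
    · exact Matrix.isHermitian_zero
    · exact Matrix.isHermitian_zero
  · have : (1 : Matrix (Fin 1 ⊕ Fin 1) (Fin 1 ⊕ Fin 1) ℂ) - blk ![1, 0, 0, 0]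
        = Matrix.diagonal (Sum.elim 0 1) := by
      ext a b
      rcases a with a | a <;> rcases b with b | b <;> fin_cases a <;> fin_cases b <;>
        simp [blk]
    rw [this]
    apply Matrix.PosSemidef.diagonal
    intro i
    rcases i with i | i <;> simp
  · have : (1 : Matrix (Fin 1 ⊕ Fin 1) (Fin 1 ⊕ Fin 1) ℂ) + blk ![1, 0, 0, 0]
        = Matrix.diagonal (Sum.elim 2 1) := by
      ext a b
      rcases a with a | a <;> rcases b with b | b <;> fin_cases a <;> fin_cases b <;>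
        simp [blk] <;> norm_num
    rw [this]
    apply Matrix.PosSemidef.diagonal
    intro i
    rcases i with i | i <;> simp
  · intro j
    fin_cases j <;> rfl

/-- The block matrix of the dilation. -/
def bigZ {n : ℕ} (Y : Fin 4 → Matrix (Fin n) (Fin n) ℂ) (g : Matrix (Fin n) (Fin 1) ℂ) :
    Matrix ((Fin n ⊕ Fin 1) ⊕ (Fin n ⊕ Fin 1)) ((Fin n ⊕ Fin 1) ⊕ (Fin n ⊕ Fin 1)) ℂ :=
  Matrix.fromBlocks (Matrix.fromBlocks (Y 0) 0 0 0)
    (Matrix.fromBlocks (Y 1 + Complex.I • Y 2) 0 gᴴ 0)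
    (Matrix.fromBlocks (Y 1 - Complex.I • Y 2) g 0 0)
    (Matrix.fromBlocks ((1 - g * gᴴ) * Y 3 * (1 - g * gᴴ)) 0 0 0)

lemma cols_mul {l m n p q : Type} [Fintype l] (a : Matrix l m ℂ) (b : Matrix l n ℂ)
    (a' : Matrix l p ℂ) (b' : Matrix l q ℂ) :
    (Matrix.fromCols a b)ᴴ * Matrix.fromCols a' b'
      = Matrix.fromBlocks (aᴴ * a') (aᴴ * b') (bᴴ * a') (bᴴ * b') := by
  rw [Matrix.conjTranspose_fromCols_eq_fromRows_conjTranspose, Matrix.fromRows_mul_fromCols]

lemma cols_mul_mul {n : ℕ} (U A W : Matrix (Fin n) (Fin n) ℂ) :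
    (Matrix.fromCols U (0 : Matrix (Fin n) (Fin 1) ℂ))ᴴ * A
        * Matrix.fromCols W (0 : Matrix (Fin n) (Fin 1) ℂ)
      = Matrix.fromBlocks (Uᴴ * A * W) 0 0 0 := by
  rw [Matrix.mul_assoc, Matrix.mul_fromCols, cols_mul]
  simp [Matrix.mul_assoc]

lemma bigZ_psd {n : ℕ} {Y : Fin 4 → Matrix (Fin n) (Fin n) ℂ} (hY : ∀ j, (Y j).IsHermitian)
    {g : Matrix (Fin n) (Fin 1) ℂ} (hg : gᴴ * g = 1)
    (hXg : (Y 1 + Complex.I • Y 2) * g = 0) {s : ℂ} (hs : s * s = 1) (hs' : star s = s)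
    (hP : (1 + s • blk Y).PosSemidef) : (1 + s • bigZ Y g).PosSemidef := by
  obtain ⟨X, hX⟩ : ∃ X, X = Y 1 + Complex.I • Y 2 := ⟨_, rfl⟩
  obtain ⟨X', hX'⟩ : ∃ X', X' = Y 1 - Complex.I • Y 2 := ⟨_, rfl⟩
  have hXX : X' = Xᴴ := by
    rw [hX, hX', Matrix.conjTranspose_add, Matrix.conjTranspose_smul, (hY 1).eq, (hY 2).eq]
    simp [sub_eq_add_neg]
  rw [← hX] at hXg
  have hgX : gᴴ * X' = 0 := by
    rw [hXX, ← Matrix.conjTranspose_mul, hXg, Matrix.conjTranspose_zero]
  obtain ⟨R, hR⟩ : ∃ R, R = 1 - g * gᴴ := ⟨_, rfl⟩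
  have hRh : Rᴴ = R := by rw [hR]; simp
  have hXR : X * R = X := by
    rw [hR, Matrix.mul_sub, ← Matrix.mul_assoc, hXg]; simp
  have hRX : R * X' = X' := by
    rw [hR, Matrix.sub_mul, Matrix.mul_assoc, hgX]; simp
  have hRR : R * R = R := by
    have h1 : g * gᴴ * (g * gᴴ) = g * gᴴ := by
      rw [Matrix.mul_assoc g, ← Matrix.mul_assoc gᴴ, hg, Matrix.one_mul]
    rw [hR]
    have : (1 - g * gᴴ) * (1 - g * gᴴ) = 1 - g * gᴴ - g * gᴴ + g * gᴴ * (g * gᴴ) := by
      noncomm_ring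
    rw [this, h1]; abel
  obtain ⟨B, hB⟩ : ∃ B : Matrix (Fin n ⊕ Fin n) ((Fin n ⊕ Fin 1) ⊕ (Fin n ⊕ Fin 1)) ℂ,
    B = Matrix.fromBlocks (Matrix.fromCols 1 0) 0 0 (Matrix.fromCols R 0) := ⟨_, rfl⟩
  obtain ⟨c, hc⟩ : ∃ c : Matrix (Fin 1) ((Fin n ⊕ Fin 1) ⊕ (Fin n ⊕ Fin 1)) ℂ,
    c = Matrix.fromCols (Matrix.fromCols 0 1) (Matrix.fromCols (s • gᴴ) 0) := ⟨_, rfl⟩
  obtain ⟨r, hr⟩ : ∃ r : Matrix (Fin 1) ((Fin n ⊕ Fin 1) ⊕ (Fin n ⊕ Fin 1)) ℂ,
    r = Matrix.fromCols (Matrix.fromCols 0 0) (Matrix.fromCols 0 1) := ⟨_, rfl⟩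
  have key : 1 + s • bigZ Y g = Bᴴ * (1 + s • blk Y) * B + cᴴ * c + rᴴ * r := by
    have h1 : (1 : Matrix (Fin n ⊕ Fin n) (Fin n ⊕ Fin n) ℂ) + s • blk Y
        = Matrix.fromBlocks (1 + s • Y 0) (s • X) (s • X') (1 + s • Y 3) := by
      rw [blk, ← hX, ← hX', ← Matrix.fromBlocks_one, Matrix.fromBlocks_smul,
        Matrix.fromBlocks_add]
      simp
    have h2 : Bᴴ * (1 + s • blk Y) * B = Matrix.fromBlocks
        (Matrix.fromBlocks (1 + s • Y 0) 0 0 0) (Matrix.fromBlocks (s • X) 0 0 0)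
        (Matrix.fromBlocks (s • X') 0 0 0) (Matrix.fromBlocks (R + s • (R * Y 3 * R)) 0 0 0) := by
      rw [h1, hB, Matrix.fromBlocks_conjTranspose, Matrix.fromBlocks_multiply,
        Matrix.fromBlocks_multiply]
      simp only [Matrix.conjTranspose_zero, Matrix.zero_mul, Matrix.mul_zero, add_zero, zero_add,
        cols_mul_mul]
      simp only [Matrix.conjTranspose_one, Matrix.one_mul, Matrix.mul_one, hRh,
        Matrix.smul_mul, Matrix.mul_smul, hXR, hRX, Matrix.mul_add, Matrix.add_mul, hRR]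
    have h3 : cᴴ * c = Matrix.fromBlocks
        (Matrix.fromBlocks 0 0 0 1) (Matrix.fromBlocks 0 0 (s • gᴴ) 0)
        (Matrix.fromBlocks 0 (s • g) 0 0) (Matrix.fromBlocks (g * gᴴ) 0 0 0) := by
      rw [hc, cols_mul, cols_mul, cols_mul, cols_mul, cols_mul]
      simp [hs', smul_smul, hs]
    have h4 : rᴴ * r = Matrix.fromBlocks 0 0 0 (Matrix.fromBlocks 0 0 0 1) := by
      rw [hr, cols_mul, cols_mul, cols_mul, cols_mul, cols_mul]
      simp
    rw [h2, h3, h4, bigZ, ← hX, ← hX', ← hR, Matrix.fromBlocks_smul, Matrix.fromBlocks_smul,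
      Matrix.fromBlocks_smul, Matrix.fromBlocks_smul, Matrix.fromBlocks_smul,
      ← Matrix.fromBlocks_one, ← Matrix.fromBlocks_one, Matrix.fromBlocks_add,
      Matrix.fromBlocks_add, Matrix.fromBlocks_add, Matrix.fromBlocks_add, Matrix.fromBlocks_add,
      Matrix.fromBlocks_add, Matrix.fromBlocks_add, Matrix.fromBlocks_add, Matrix.fromBlocks_add]
    have h5 : R + s • (R * Y 3 * R) + g * gᴴ = 1 + s • (R * Y 3 * R) := by
      have h6 : R + g * gᴴ = 1 := by rw [hR]; abel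
      rw [add_right_comm, h6]
    simp only [smul_zero, add_zero, zero_add, Matrix.fromBlocks_add, h5]
  rw [key]
  exact ((hP.conjTranspose_mul_mul_same B).add
    (Matrix.posSemidef_conjTranspose_mul_self c)).add (Matrix.posSemidef_conjTranspose_mul_self r)

/-- The dilation, as a tuple indexed by `Fin n ⊕ Fin 1`. -/
noncomputable def dil {n : ℕ} (Y : Fin 4 → Matrix (Fin n) (Fin n) ℂ)
    (g : Matrix (Fin n) (Fin 1) ℂ) : Fin 4 → Matrix (Fin n ⊕ Fin 1) (Fin n ⊕ Fin 1) ℂ :=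
  unblk (bigZ Y g)

/-- The permutation matrix identifying the index sets. -/
def em (n : ℕ) : Matrix (Fin n ⊕ Fin 1) (Fin (n + 1)) ℂ :=
  (1 : Matrix (Fin n ⊕ Fin 1) (Fin n ⊕ Fin 1) ℂ).submatrix id finSumFinEquiv.symm

lemma em_left (n : ℕ) : (em n)ᴴ * em n = 1 := by
  unfold em
  rw [Matrix.conjTranspose_submatrix, Matrix.conjTranspose_one,
    ← Matrix.submatrix_mul _ _ _ _ _ Function.bijective_id, Matrix.one_mul]
  exact Matrix.submatrix_one_equiv _

lemma em_right (n : ℕ) : em n * (em n)ᴴ = 1 := by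
  unfold em
  rw [Matrix.conjTranspose_submatrix, Matrix.conjTranspose_one,
    ← Matrix.submatrix_mul _ _ _ _ _ finSumFinEquiv.symm.bijective, Matrix.one_mul,
    Matrix.submatrix_id_id]

lemma dil_mem {n : ℕ} {Y : Fin 4 → Matrix (Fin n) (Fin n) ℂ} (hY : Y ∈ KH n)
    {g : Matrix (Fin n) (Fin 1) ℂ} (hg : gᴴ * g = 1)
    (hXg : (Y 1 + Complex.I • Y 2) * g = 0) :
    (fun j => (em n)ᴴ * dil Y g j * em n) ∈ KH (n + 1) := by
  have hm : (1 - bigZ Y g).PosSemidef := by
    have := bigZ_psd hY.1 hg hXg (s := -1) (by norm_num) (by simp)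
      (by simpa [sub_eq_add_neg] using hY.2.1)
    simpa [sub_eq_add_neg] using this
  have hp : (1 + bigZ Y g).PosSemidef := by
    have := bigZ_psd hY.1 hg hXg (s := 1) (by norm_num) (by simp) (by simpa using hY.2.2)
    simpa using this
  have hh : (bigZ Y g).IsHermitian := by
    have := hp.isHermitian.sub Matrix.isHermitian_one
    simpa using this
  have hdd : (dd (em n))ᴴ * dd (em n) = 1 := by
    rw [dd_conjTranspose, ← dd_mul, em_left, dd_one]
  refine ⟨fun j => Matrix.isHermitian_conjTranspose_mul_mul _ (unblk_hermitian hh j), ?_, ?_⟩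
  · have : 1 - blk (fun j => (em n)ᴴ * dil Y g j * em n)
        = (dd (em n))ᴴ * (1 - bigZ Y g) * dd (em n) := by
      rw [blk_conj, dil, blk_unblk, Matrix.mul_sub, Matrix.sub_mul, Matrix.mul_one, hdd]
    rw [this]
    exact hm.conjTranspose_mul_mul_same _
  · have : 1 + blk (fun j => (em n)ᴴ * dil Y g j * em n)
        = (dd (em n))ᴴ * (1 + bigZ Y g) * dd (em n) := by
      rw [blk_conj, dil, blk_unblk, Matrix.mul_add, Matrix.add_mul, Matrix.mul_one, hdd]
    rw [this]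
    exact hp.conjTranspose_mul_mul_same _

/-- The inclusion `ℂⁿ → ℂⁿ ⊕ ℂ`. -/
def inc (n : ℕ) : Matrix (Fin n ⊕ Fin 1) (Fin n) ℂ := Matrix.fromRows 1 0

lemma inc_isometry (n : ℕ) : (inc n)ᴴ * inc n = 1 := by
  rw [inc, Matrix.conjTranspose_fromRows_eq_fromCols_conjTranspose, Matrix.fromCols_mul_fromRows]
  simp

lemma inc_compress {n : ℕ} (M : Matrix (Fin n ⊕ Fin 1) (Fin n ⊕ Fin 1) ℂ) :
    (inc n)ᴴ * M * inc n = M.toBlocks₁₁ := by
  rw [inc, Matrix.conjTranspose_fromRows_eq_fromCols_conjTranspose]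
  conv_lhs => rw [← Matrix.fromBlocks_toBlocks M]
  rw [Matrix.fromCols_mul_fromBlocks, Matrix.fromCols_mul_fromRows]
  simp

lemma dil_corner {n : ℕ} (Y : Fin 4 → Matrix (Fin n) (Fin n) ℂ) (g : Matrix (Fin n) (Fin 1) ℂ)
    (j : Fin 3) : (dil Y g (Fin.castLE (by norm_num) j)).toBlocks₁₁
      = Y (Fin.castLE (by norm_num) j) := by
  have hI : Complex.I * Complex.I = -1 := Complex.I_mul_I
  ext a b
  fin_cases j
  · rfl
  · show 1 / 2 * ((Y 1 a b + Complex.I * Y 2 a b) + (Y 1 a b - Complex.I * Y 2 a b)) = Y 1 a b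
    ring
  · show -Complex.I / 2 * ((Y 1 a b + Complex.I * Y 2 a b) - (Y 1 a b - Complex.I * Y 2 a b))
      = Y 2 a b
    linear_combination (-(Y 2 a b)) * hI

lemma dil_corner' {n : ℕ} (Y : Fin 4 → Matrix (Fin n) (Fin n) ℂ) (g : Matrix (Fin n) (Fin 1) ℂ)
    (j : Fin 3) : (dil Y g (Fin.castLE (by norm_num) j)).toBlocks₂₂ = 0 := by
  ext a b
  fin_cases j
  · rfl
  · show 1 / 2 * ((0 : ℂ) + 0) = 0
    ring
  · show -Complex.I / 2 * ((0 : ℂ) - 0) = 0
    ring

lemma dil_X {n : ℕ} (Y : Fin 4 → Matrix (Fin n) (Fin n) ℂ) (g : Matrix (Fin n) (Fin 1) ℂ) :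
    dil Y g 1 + Complex.I • dil Y g 2
      = Matrix.fromBlocks (Y 1 + Complex.I • Y 2) 0 gᴴ 0 := by
  have h := blk_unblk (bigZ Y g)
  rw [blk, bigZ] at h
  exact (Matrix.fromBlocks_inj.1 h).2.1

lemma trace_blocks {n p : ℕ} (M : Matrix (Fin n ⊕ Fin p) (Fin n ⊕ Fin p) ℂ) :
    M.trace = M.toBlocks₁₁.trace + M.toBlocks₂₂.trace := by
  simp [Matrix.trace, Fintype.sum_sum_type, Matrix.toBlocks₁₁, Matrix.toBlocks₂₂]

lemma trace_conj {α β : Type} [Fintype α] [DecidableEq α] [Fintype β] [DecidableEq β]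
    {U : Matrix β α ℂ} (hU : Uᴴ * U = 1) (M : Matrix α α ℂ) : (U * M * Uᴴ).trace = M.trace := by
  rw [Matrix.trace_mul_comm, ← Matrix.mul_assoc, hU, Matrix.one_mul]

/-- A free extreme point of the projection has no fixed vector of its first coordinate. -/
lemma no_fixed {n : ℕ} {Z : Fin 3 → Matrix (Fin n) (Fin n) ℂ}
    (hZ : Z ∈ freeExt (proj KH 3 (by norm_num)) n) {v : Matrix (Fin n) (Fin 1) ℂ}
    (hv : Z 0 * v = v) : v = 0 := by
  by_contra hv0
  obtain ⟨hn, ⟨Y, hY, hYZ⟩, hfree⟩ := hZ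
  have hZ0 : Z 0 = Y 0 := hYZ 0
  have hZ1 : Z 1 = Y 1 := hYZ 1
  have hZ2 : Z 2 = Y 2 := hYZ 2
  obtain ⟨X, hX⟩ : ∃ X, X = Y 1 + Complex.I • Y 2 := ⟨_, rfl⟩
  obtain ⟨X', hX'⟩ : ∃ X', X' = Y 1 - Complex.I • Y 2 := ⟨_, rfl⟩
  have hXX : X' = Xᴴ := by
    rw [hX, hX', Matrix.conjTranspose_add, Matrix.conjTranspose_smul, (hY.1 1).eq, (hY.1 2).eq]
    simp [sub_eq_add_neg]
  -- `X' v = 0`
  have hXv : X' * v = 0 := by
    obtain ⟨B, hB⟩ : ∃ B : Matrix (Fin n ⊕ Fin n) (Fin 1) ℂ, B = Matrix.fromRows v 0 := ⟨_, rfl⟩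
    have hZB : blk Y * B = Matrix.fromRows v (X' * v) := by
      rw [hB, blk, Matrix.fromBlocks_mul_fromRows, ← hX', ← hZ0, hv]
      simp
    have h1 := ((sq_psd hY).conjTranspose_mul_mul_same B).trace_nonneg
    have hh : (blk Y)ᴴ = blk Y := blk_hermitian hY.1
    have h2 : Bᴴ * (1 - blk Y * blk Y) * B = Bᴴ * B - (blk Y * B)ᴴ * (blk Y * B) := by
      rw [Matrix.conjTranspose_mul, hh]
      simp only [Matrix.mul_sub, Matrix.sub_mul, Matrix.mul_one, Matrix.mul_assoc]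
    have h3 : Bᴴ * B - (blk Y * B)ᴴ * (blk Y * B) = -((X' * v)ᴴ * (X' * v)) := by
      rw [hZB, hB, Matrix.conjTranspose_fromRows_eq_fromCols_conjTranspose,
        Matrix.conjTranspose_fromRows_eq_fromCols_conjTranspose, Matrix.fromCols_mul_fromRows,
        Matrix.fromCols_mul_fromRows]
      simp
    rw [h2, h3, Matrix.trace_neg] at h1
    have h4 := (Matrix.posSemidef_conjTranspose_mul_self (X' * v)).trace_nonneg
    exact Matrix.trace_conjTranspose_mul_self_eq_zero_iff.1 (le_antisymm (neg_nonneg.1 h1) h4)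
  -- `X` is singular
  have hdet' : X'.det = 0 := by
    rw [← Matrix.exists_mulVec_eq_zero_iff]
    refine ⟨fun i => v i 0, ?_, ?_⟩
    · intro h
      apply hv0
      ext i j
      rw [Subsingleton.elim j 0]
      exact congrFun h i
    · ext i
      have := congrFun (congrFun hXv i) 0
      simpa [Matrix.mul_apply, Matrix.mulVec, dotProduct] using this
  have hdet : X.det = 0 := by
    rw [hXX, Matrix.det_conjTranspose] at hdet'
    simpa using hdet'
  obtain ⟨w, hw0, hw⟩ := Matrix.exists_mulVec_eq_zero_iff.2 hdet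
  have hpos : 0 < ∑ i, ‖w i‖ ^ 2 := by
    obtain ⟨i, hi⟩ := Function.ne_iff.1 hw0
    have h1 : 0 < ‖w i‖ ^ 2 := by
      have : w i ≠ 0 := hi
      positivity
    exact lt_of_lt_of_le h1 (Finset.single_le_sum (f := fun i => ‖w i‖ ^ 2)
      (fun c _ => by positivity) (Finset.mem_univ i))
  obtain ⟨c, hc⟩ : ∃ c : ℝ, c = (Real.sqrt (∑ i, ‖w i‖ ^ 2))⁻¹ := ⟨_, rfl⟩
  have hcc : c * c * ∑ i, ‖w i‖ ^ 2 = 1 := by
    have h1 := Real.mul_self_sqrt hpos.le
    have h2 := Real.sqrt_pos.2 hpos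
    rw [hc]
    field_simp
    nlinarith
  obtain ⟨g, hgdef⟩ : ∃ g : Matrix (Fin n) (Fin 1) ℂ, g = Matrix.of fun i _ => (c : ℂ) * w i :=
    ⟨_, rfl⟩
  have hg : gᴴ * g = 1 := by
    ext a b
    rw [Subsingleton.elim a 0, Subsingleton.elim b 0, Matrix.mul_apply, Matrix.one_apply_eq]
    have h1 : ∀ i, gᴴ 0 i * g i 0 = ((c * c * ‖w i‖ ^ 2 : ℝ) : ℂ) := by
      intro i
      rw [hgdef, Matrix.conjTranspose_apply, Matrix.of_apply, Complex.star_def, map_mul,
        Complex.conj_ofReal]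
      have : (starRingEnd ℂ) (w i) * w i = ((‖w i‖ ^ 2 : ℝ) : ℂ) := by
        rw [← Complex.normSq_eq_conj_mul_self, Complex.normSq_eq_norm_sq]
      push_cast at this ⊢
      linear_combination ((c : ℂ) * c) * this
    rw [Finset.sum_congr rfl fun i _ => h1 i, ← Complex.ofReal_sum, ← Finset.mul_sum, hcc]
    simp
  have hXg : X * g = 0 := by
    ext a b
    have h1 := congrFun hw a
    rw [hgdef, Matrix.mul_apply]
    simp only [Matrix.mulVec, dotProduct, Pi.zero_apply] at h1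
    simp only [Matrix.of_apply, Matrix.zero_apply]
    have : ∑ x, X a x * ((c : ℂ) * w x) = (c : ℂ) * ∑ x, X a x * w x := by
      rw [Finset.mul_sum]
      exact Finset.sum_congr rfl fun x _ => by ring
    rw [this, h1, mul_zero]
  rw [hX] at hXg
  -- the dilation
  have hmem := dil_mem hY hg hXg
  obtain ⟨V, hV⟩ : ∃ V : Matrix (Fin (n + 1)) (Fin n) ℂ, V = (em n)ᴴ * inc n := ⟨_, rfl⟩
  have hVV : Vᴴ * V = 1 := by
    rw [hV, Matrix.conjTranspose_mul, Matrix.conjTranspose_conjTranspose]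
    calc (inc n)ᴴ * em n * ((em n)ᴴ * inc n) = (inc n)ᴴ * (em n * (em n)ᴴ) * inc n := by
          simp only [Matrix.mul_assoc]
      _ = 1 := by rw [em_right, Matrix.mul_one, inc_isometry]
  have hne : Nonempty (Fin n) := ⟨⟨0, hn⟩⟩
  have hV0 : V ≠ 0 := by
    intro h
    rw [h] at hVV
    simp at hVV
  have hcomb : ∀ j : Fin 3, Z j = ∑ _i : Unit, Vᴴ * ((em n)ᴴ
      * dil Y g (Fin.castLE (by norm_num) j) * em n) * V := by
    intro j
    rw [Finset.univ_unique, Finset.sum_singleton, hV, Matrix.conjTranspose_mul,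
      Matrix.conjTranspose_conjTranspose]
    calc Z j = (inc n)ᴴ * dil Y g (Fin.castLE (by norm_num) j) * inc n := by
          rw [inc_compress, dil_corner, hYZ]
      _ = (inc n)ᴴ * (em n * (em n)ᴴ) * dil Y g (Fin.castLE (by norm_num) j)
            * (em n * (em n)ᴴ) * inc n := by rw [em_right]; simp
      _ = _ := by simp only [Matrix.mul_assoc]
  have := hfree Unit (fun _ => n + 1)
    (fun _ j => (em n)ᴴ * dil Y g (Fin.castLE (by norm_num) j) * em n) (fun _ => V)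
    (fun _ => Nat.succ_pos n) (fun _ => ⟨_, hmem, fun _ => rfl⟩)
    (by simpa using hVV) hcomb (fun _ => hV0) ()
  rcases this with ⟨h, -⟩ | ⟨-, p, W, hp, hW, U, hU1, hU2, hUj⟩
  · omega
  · have hp1 : p = 1 := by
      have h1 := Matrix.trace_mul_comm Uᴴ U
      rw [hU1, hU2, Matrix.trace_one, Matrix.trace_one] at h1
      simp only [Fintype.card_sum, Fintype.card_fin] at h1
      have h2 : n + p = n + 1 := by exact_mod_cast h1
      omega
    subst hp1
    have hW0 : ∀ j, W j = 0 := by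
      intro j
      have h1 := congrArg Matrix.trace (hUj j)
      rw [trace_conj hU1, trace_blocks] at h1
      simp only [Matrix.toBlocks_fromBlocks₁₁, Matrix.toBlocks_fromBlocks₂₂] at h1
      have h2 : ((em n)ᴴ * dil Y g (Fin.castLE (by norm_num) j) * em n).trace = (Z j).trace := by
        have h3 := trace_conj (U := (em n)ᴴ) (by rw [Matrix.conjTranspose_conjTranspose, em_right])
          (dil Y g (Fin.castLE (by norm_num) j))
        rw [Matrix.conjTranspose_conjTranspose] at h3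
        rw [h3, trace_blocks, dil_corner, dil_corner', hYZ]
        simp
      rw [h2] at h1
      have h4 : (W j).trace = 0 := by linear_combination -h1
      ext a b
      rw [Subsingleton.elim a 0, Subsingleton.elim b 0]
      simpa [Matrix.trace] using h4
    have hA := hUj 1
    have hB := hUj 2
    have hAB : (em n)ᴴ * (Matrix.fromBlocks X 0 gᴴ 0 : Matrix (Fin n ⊕ Fin 1) (Fin n ⊕ Fin 1) ℂ)
        * em n = U * (Matrix.fromBlocks X 0 0 0 : Matrix (Fin n ⊕ Fin 1) (Fin n ⊕ Fin 1) ℂ)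
        * Uᴴ := by
      rw [hX, ← dil_X]
      have e1 : (em n)ᴴ * (dil Y g 1 + Complex.I • dil Y g 2) * em n
          = (em n)ᴴ * dil Y g 1 * em n + Complex.I • ((em n)ᴴ * dil Y g 2 * em n) := by
        simp only [Matrix.mul_add, Matrix.add_mul, Matrix.mul_smul, Matrix.smul_mul]
      rw [e1]
      have hA' : (em n)ᴴ * dil Y g 1 * em n
          = U * Matrix.fromBlocks (Z 1) 0 0 (W 1) * Uᴴ := hA
      have hB' : (em n)ᴴ * dil Y g 2 * em n
          = U * Matrix.fromBlocks (Z 2) 0 0 (W 2) * Uᴴ := hB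
      rw [hA', hB', hW0, hW0, hZ1, hZ2, ← Matrix.smul_mul, ← Matrix.mul_smul,
        ← Matrix.add_mul, ← Matrix.mul_add, Matrix.fromBlocks_smul, Matrix.fromBlocks_add]
      simp
    have h1 := congrArg (fun M => (Mᴴ * M).trace) hAB
    have e1 : ∀ F : Matrix (Fin n ⊕ Fin 1) (Fin n ⊕ Fin 1) ℂ,
        ((em n)ᴴ * F * em n)ᴴ * ((em n)ᴴ * F * em n) = (em n)ᴴ * (Fᴴ * F) * ((em n)ᴴ)ᴴ := by
      intro F
      rw [Matrix.conjTranspose_mul, Matrix.conjTranspose_mul, Matrix.conjTranspose_conjTranspose]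
      calc (em n)ᴴ * (Fᴴ * em n) * ((em n)ᴴ * F * em n)
          = (em n)ᴴ * Fᴴ * (em n * (em n)ᴴ) * F * em n := by simp only [Matrix.mul_assoc]
        _ = _ := by rw [em_right, Matrix.mul_one]; simp only [Matrix.mul_assoc]
    have e2 : ∀ F : Matrix (Fin n ⊕ Fin 1) (Fin n ⊕ Fin 1) ℂ,
        (U * F * Uᴴ)ᴴ * (U * F * Uᴴ) = U * (Fᴴ * F) * Uᴴ := by
      intro F
      rw [Matrix.conjTranspose_mul, Matrix.conjTranspose_mul, Matrix.conjTranspose_conjTranspose]
      calc U * (Fᴴ * Uᴴ) * (U * F * Uᴴ)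
          = U * Fᴴ * (Uᴴ * U) * F * Uᴴ := by simp only [Matrix.mul_assoc]
        _ = _ := by rw [hU1, Matrix.mul_one]; simp only [Matrix.mul_assoc]
    rw [e1, e2, trace_conj hU1, trace_conj (by rw [Matrix.conjTranspose_conjTranspose, em_right]),
      Matrix.fromBlocks_conjTranspose, Matrix.fromBlocks_conjTranspose,
      Matrix.fromBlocks_multiply, Matrix.fromBlocks_multiply, trace_blocks, trace_blocks] at h1
    simp only [Matrix.toBlocks_fromBlocks₁₁, Matrix.toBlocks_fromBlocks₂₂] at h1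
    simp [Matrix.trace_add, Matrix.trace_mul_comm g gᴴ, hg] at h1

lemma x0_not_comb : ¬ IsComb (freeExt (proj KH 3 (by norm_num))) 1 x0 := by
  rintro ⟨ι, _, d, Y, V, hd, hY, hV, hc⟩
  have hpsd : ∀ i, (1 - Y i 0).PosSemidef := by
    intro i
    obtain ⟨-, ⟨L, hL, hLY⟩, -⟩ := hY i
    have h1 := hL.2.1.submatrix (Sum.inl : Fin (d i) → Fin (d i) ⊕ Fin (d i))
    have h2 : ((1 : Matrix (Fin (d i) ⊕ Fin (d i)) (Fin (d i) ⊕ Fin (d i)) ℂ)
        - blk L).submatrix Sum.inl Sum.inl = 1 - Y i 0 := by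
      rw [hLY 0]
      ext a b
      simp [blk, Matrix.one_apply]
    rwa [h2] at h1
  have hsum : ∑ i, (V i)ᴴ * (1 - Y i 0) * V i = 0 := by
    simp only [Matrix.mul_sub, Matrix.sub_mul, Matrix.mul_one]
    rw [Finset.sum_sub_distrib, hV, ← hc 0]
    simp [x0]
  have hfix : ∀ i, V i = 0 := by
    intro i
    have h1 := psd_sum_zero (fun i => (hpsd i).conjTranspose_mul_mul_same (V i)) hsum i
    have h2 := psd_zero (hpsd i) h1
    rw [Matrix.sub_mul, Matrix.one_mul, sub_eq_zero] at h2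
    exact no_fixed (hY i) h2.symm
  simp [hfix] at hV

/-- The projection of a matrix convex set is matrix convex. -/
lemma proj_convex {n : ℕ} {X : Fin 3 → Matrix (Fin n) (Fin n) ℂ}
    (h : IsComb (proj KH 3 (by norm_num)) n X) : X ∈ proj KH 3 (by norm_num) n := by
  obtain ⟨ι, _, d, Y, V, hd, hY, hV, hc⟩ := h
  choose L hL hLY using hY
  refine ⟨fun j => ∑ i, (V i)ᴴ * L i j * V i,
    KH_convex ⟨ι, inferInstance, d, L, V, hd, hL, hV, fun j => rfl⟩, fun j => ?_⟩
  rw [hc j]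
  exact Finset.sum_congr rfl fun i _ => by rw [hLY]

lemma comb_mono {g : ℕ} {S T : MSet g} (h : ∀ n, 0 < n → S n ⊆ T n) {n : ℕ}
    {X : Fin g → Matrix (Fin n) (Fin n) ℂ} (hX : IsComb S n X) : IsComb T n X := by
  obtain ⟨ι, _, d, Y, V, hd, hY, hV, hc⟩ := hX
  exact ⟨ι, inferInstance, d, Y, V, hd, fun i => h _ (hd i) (hY i), hV, hc⟩

/-- Q2 has a negative answer. -/
theorem result : ∃ (g h : ℕ) (hg : h < g) (K : MSet g),
    IsClosedBoundedMatrixConvex K ∧
    (∀ n, 0 < n → K n = mconv (freeExt K) n) ∧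
    (∀ n, 0 < n → mconv (freeExt (proj K h hg.le)) n ⊆ proj K h hg.le n) ∧
    (∃ n, 0 < n ∧ ∃ X ∈ proj K h hg.le n, X ∉ mconv (freeExt (proj K h hg.le)) n) := by
  refine ⟨4, 3, by norm_num, KH, ⟨fun n X hX => hX.1, fun n _ X hX => KH_convex hX,
    fun n _ => KH_closed n, fun n _ => ⟨1, fun X hX => KH_bounded hX⟩⟩, ?_, ?_, ?_⟩
  · intro n hn
    apply Set.Subset.antisymm
    · intro X hX
      exact comb_of_mem hn hX
    · intro X hX
      exact KH_convex (comb_mono (fun m _ Y hY => hY.2.1) hX)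
  · intro n _ X hX
    exact proj_convex (comb_mono (fun m _ Y hY => hY.2.1) hX)
  · exact ⟨1, one_pos, x0, x0_mem, x0_not_comb⟩

end Pool.Agent.Results.MP_c7d282_an.ProjectionFails
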